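import Pool.Agent.Helper15.SG.Big

set_option autoImplicit false

/-!
# Non-cyclic numbers without small prime factors in short intervals
-/

namespace Pool.Agent.Helper15.SG

open Finset

theorem sum_log_div_sq (z P : ℕ) (hz : 2 ≤ z) (hzP : z ≤ P) :
    ∑ p ∈ Ioc z P, (1 + Real.log p) / (p : ℝ) ^ 2 ≤ (2 + Real.log z) / z := by
  have key : ∑ p ∈ Ioc z P, (1 + Real.log p) / (p : ℝ) ^ 2 ≤
      (2 + Real.log z) / z - (2 + Real.log P) / P := by
    induction P, hzP using Nat.le_induction with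
    | base => simp
    | succ n hn ih =>
      rw [Finset.sum_Ioc_succ_top hn]
      have hn2 : 2 ≤ n := hz.trans hn
      have hn0 : (2 : ℝ) ≤ n := by exact_mod_cast hn2
      have h1 : (1 + Real.log ((n + 1 : ℕ) : ℝ)) / ((n + 1 : ℕ) : ℝ) ^ 2 ≤
          (2 + Real.log n) / n - (2 + Real.log ((n + 1 : ℕ) : ℝ)) / ((n + 1 : ℕ) : ℝ) := by
        push_cast
        set l := Real.log ((n : ℝ) + 1) with hl
        have h2 : l - 1 / n ≤ Real.log n := by
          have h3 : l - Real.log n ≤ ((n : ℝ) + 1) / n - 1 := by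
            rw [hl, ← Real.log_div (by positivity) (by positivity)]
            exact Real.log_le_sub_one_of_pos (by positivity)
          have h4 : ((n : ℝ) + 1) / n - 1 = 1 / n := by field_simp; ring
          linarith
        have hl1 : 1 / 2 ≤ l := by
          have h5 : Real.log 2 ≤ l := by
            rw [hl]; apply Real.log_le_log (by norm_num); linarith
          have := Real.log_two_gt_d9
          linarith
        have h6 : (2 + (l - 1 / n)) / n ≤ (2 + Real.log n) / n := by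
          apply div_le_div_of_nonneg_right _ (by linarith)
          linarith
        refine le_trans ?_ (sub_le_sub_right h6 _)
        have hn0' : (0 : ℝ) < n := by linarith
        rw [le_sub_iff_add_le, div_add_div _ _ (by positivity) (by positivity), div_le_div_iff₀ (by positivity) hn0']
        have e : (2 + (l - 1 / (n : ℝ))) * ((n + 1) ^ 2 * (n + 1)) =
          (2 + l) * ((n + 1) ^ 2 * (n + 1)) - (1 / n) * ((n + 1) ^ 2 * (n + 1)) := by ring
        rw [e]
        have e2 : (1 / (n : ℝ)) * ((n + 1) ^ 2 * (n + 1)) * n = (n + 1) ^ 3 := by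
          field_simp
        nlinarith [sq_nonneg (n : ℝ), mul_nonneg hn0'.le hn0'.le]
      linarith
  have hP0 : (0 : ℝ) ≤ (2 + Real.log P) / P := by
    have : 0 ≤ Real.log P := Real.log_natCast_nonneg P
    positivity
  linarith

theorem sum_inv_sqrt (z P : ℕ) : ∑ p ∈ Ioc z P, 1 / √(p : ℝ) ≤ 2 * √P := by
  have h1 : ∑ p ∈ Ioc z P, 1 / √(p : ℝ) ≤ ∑ p ∈ Ioc 0 P, 1 / √(p : ℝ) := by
    apply Finset.sum_le_sum_of_subset_of_nonneg
    · apply Finset.Ioc_subset_Ioc_left (Nat.zero_le _)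
    · intros; positivity
  refine h1.trans ?_
  induction P with
  | zero => simp
  | succ n ih =>
    rw [Finset.sum_Ioc_succ_top (Nat.zero_le n)]
    have ih' := ih (by
      apply Finset.sum_le_sum_of_subset_of_nonneg
      · apply Finset.Ioc_subset_Ioc_left (Nat.zero_le _)
      · intros; positivity)
    have h2 : 1 / √((n + 1 : ℕ) : ℝ) ≤ 2 * √((n + 1 : ℕ) : ℝ) - 2 * √(n : ℝ) := by
      push_cast
      have ha : 0 < √((n : ℝ) + 1) := Real.sqrt_pos.2 (by positivity)
      have hb : 0 ≤ √(n : ℝ) := Real.sqrt_nonneg _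
      have e1 : √((n : ℝ) + 1) ^ 2 = n + 1 := Real.sq_sqrt (by positivity)
      have e2 : √(n : ℝ) ^ 2 = n := Real.sq_sqrt (by positivity)
      rw [div_le_iff₀ ha]
      nlinarith [sq_nonneg (√((n : ℝ) + 1) - √(n : ℝ))]
    linarith

theorem sum_inv_sq (z P : ℕ) (hz : 1 ≤ z) (hzP : z ≤ P) :
    ∑ p ∈ Ioc z P, (1 : ℝ) / (p : ℝ) ^ 2 ≤ (1 : ℝ) / z := by
  have key : ∑ p ∈ Ioc z P, (1 : ℝ) / (p : ℝ) ^ 2 ≤ (1 : ℝ) / z - (1 : ℝ) / P := by
    induction P, hzP using Nat.le_induction with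
    | base => simp
    | succ n hn ih =>
      rw [Finset.sum_Ioc_succ_top hn]
      have hn0 : (1 : ℝ) ≤ n := by exact_mod_cast hz.trans hn
      have h1 : (1 : ℝ) / ((n + 1 : ℕ) : ℝ) ^ 2 ≤ (1 : ℝ) / n - 1 / ((n + 1 : ℕ) : ℝ) := by
        push_cast
        rw [div_sub_div _ _ (by positivity) (by positivity), div_le_div_iff₀ (by positivity) (by positivity)]
        nlinarith
      linarith
  have : (0 : ℝ) ≤ 1 / P := by positivity
  linarith

/-- `n ∈ (X, X + H]` is a multiple of `p²` or of `p q`, `q ≡ 1 (mod p)`, for primes `p > z`, `q` -/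
def Bad (X H z : ℕ) : Set ℕ := {n | X < n ∧ n ≤ X + H ∧ ∃ p, p.Prime ∧ z < p ∧
  (p ^ 2 ∣ n ∨ ∃ q, q.Prime ∧ p ∣ q - 1 ∧ p * q ∣ n)}

/-- the bound for one `p` -/
theorem card_NP' (X H p : ℕ) (w : ℝ) (hw : 2 ≤ w) (hwH : w ^ 30 = H) (hp : 2 ≤ p) (hpH : p ≤ H)
    (hHX : H ≤ X) (hX : X ≤ H ^ 2) (A : Finset ℕ) (hA : ∀ n ∈ A, n ∈ NP X H p) :
    (A.card : ℝ) ≤ 7 * (1 + Real.log (2 * H)) * H * ((1 + Real.log p) / (p : ℝ) ^ 2) +
      7 * (1 + Real.log (2 * H)) * (1 + w ^ 20 * (1 / √p)) := by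
  have hw0 : 0 < w := by linarith
  have hw1 : 1 ≤ w := by linarith
  have hp0 : (2 : ℝ) ≤ p := by exact_mod_cast hp
  have hH0 : (1 : ℝ) ≤ H := by rw [← hwH]; exact one_le_pow₀ hw1
  have hH : 0 < H := by
    have : (0 : ℝ) < H := by linarith
    exact_mod_cast this
  set T := ⌈w ^ 20 / √(p : ℝ)⌉₊ with hT
  have hsp : 0 < √(p : ℝ) := Real.sqrt_pos.2 (by linarith)
  have hsp1 : 1 ≤ √(p : ℝ) := by
    rw [Real.one_le_sqrt]; linarith
  have hT1 : 1 ≤ T := by
    rw [hT, Nat.one_le_ceil_iff]; positivity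
  have hTle : (T : ℝ) ≤ 1 + w ^ 20 * (1 / √p) := by
    have := (Nat.ceil_lt_add_one (show 0 ≤ w ^ 20 / √(p : ℝ) by positivity)).le
    rw [← hT] at this
    rw [mul_one_div]; linarith
  have hTge : w ^ 20 / √(p : ℝ) ≤ T := Nat.le_ceil _
  have hXT : X ≤ p ^ 2 * T ^ 3 := by
    have h1 : (X : ℝ) ≤ p ^ 2 * T ^ 3 := by
      have h2 : (X : ℝ) ≤ w ^ 60 := by
        have : (X : ℝ) ≤ (H : ℝ) ^ 2 := by exact_mod_cast hX
        rw [← hwH] at this
        calc (X : ℝ) ≤ (w ^ 30) ^ 2 := this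
          _ = w ^ 60 := by ring
      have h3 : (w ^ 20 / √(p : ℝ)) ^ 3 ≤ (T : ℝ) ^ 3 := pow_le_pow_left₀ (by positivity) hTge 3
      have h4 : w ^ 60 ≤ p ^ 2 * (w ^ 20 / √(p : ℝ)) ^ 3 := by
        rw [div_pow]
        have e1 : (p : ℝ) ^ 2 = √(p : ℝ) ^ 4 := by
          rw [show (4 : ℕ) = 2 * 2 by norm_num, pow_mul, Real.sq_sqrt (by positivity)]
        rw [e1]
        have e2 : √(p : ℝ) ^ 4 * ((w ^ 20) ^ 3 / √(p : ℝ) ^ 3) = w ^ 60 * √(p : ℝ) := by
          field_simp
        rw [e2]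
        exact le_mul_of_one_le_right (by positivity) hsp1
      calc (X : ℝ) ≤ w ^ 60 := h2
        _ ≤ p ^ 2 * (w ^ 20 / √(p : ℝ)) ^ 3 := h4
        _ ≤ p ^ 2 * T ^ 3 := mul_le_mul_of_nonneg_left h3 (by positivity)
    exact_mod_cast h1
  have hTH : (T : ℝ) ≤ H := by
    rw [← hwH]
    have h1 : w ^ 20 * (1 / √p) ≤ w ^ 20 := by
      apply mul_le_of_le_one_right (by positivity)
      rw [div_le_one hsp]; exact hsp1
    have h2 : (1 : ℝ) ≤ w ^ 20 := one_le_pow₀ hw1
    have h3 : 2 * w ^ 20 ≤ w ^ 30 := by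
      have : (2 : ℝ) ≤ w ^ 10 := by
        calc (2 : ℝ) ≤ w := hw
          _ ≤ w ^ 10 := le_self_pow₀ hw1 (by norm_num)
      calc 2 * w ^ 20 ≤ w ^ 10 * w ^ 20 := mul_le_mul_of_nonneg_right this (by positivity)
        _ = w ^ 30 := by ring
    linarith
  set L := 1 + Real.log (2 * H) with hL
  have hT1' : (1 : ℝ) ≤ T := by exact_mod_cast hT1
  have hlogp : 0 ≤ Real.log p := Real.log_nonneg (by linarith)
  have hlogpL : Real.log p ≤ Real.log (2 * H) := by
    apply Real.log_le_log (by linarith)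
    have : (p : ℝ) ≤ H := by exact_mod_cast hpH
    linarith
  have hlogT : Real.log (2 * T) ≤ Real.log (2 * H) := by
    apply Real.log_le_log (by linarith); linarith
  have hlogT0 : 0 ≤ Real.log (2 * T) := Real.log_nonneg (by linarith)
  have hlogH : 0 ≤ Real.log (2 * H) := Real.log_nonneg (by linarith)
  have hL1 : 1 ≤ L := by rw [hL]; linarith
  have main := card_NP X H p T hp hH hHX hX hT1 hXT A hA
  set D : ℝ := (H : ℝ) / p ^ 2 with hD
  have hD0 : 0 ≤ D := by rw [hD]; positivity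
  have e1 : 2 * (D * (3 + Real.log (2 * H))) ≤ 6 * L * D := by
    have : 3 + Real.log (2 * H) ≤ 3 * L := by rw [hL]; linarith
    nlinarith [mul_le_mul_of_nonneg_left this hD0]
  have e2 : D * (1 + Real.log (2 * T)) * (1 + 4 * Real.log p) ≤ L * D * (1 + 4 * Real.log p) := by
    apply mul_le_mul_of_nonneg_right _ (by positivity)
    rw [mul_comm L D]
    apply mul_le_mul_of_nonneg_left _ hD0
    rw [hL]; linarith
  have e3 : 1 + 2 * (T + 1) * Real.log p + (2 * T) * (1 + Real.log (2 * T)) ≤ 7 * L * T := by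
    have a1 : 1 ≤ L * T := by nlinarith
    have a2 : 2 * (T + 1) * Real.log p ≤ 4 * T * L := by
      have : Real.log p ≤ L := by rw [hL]; linarith
      calc 2 * ((T : ℝ) + 1) * Real.log p ≤ 2 * (T + 1) * L :=
            mul_le_mul_of_nonneg_left this (by positivity)
        _ ≤ 4 * T * L := by nlinarith
    have a3 : (2 * T) * (1 + Real.log (2 * T)) ≤ 2 * T * L := by
      apply mul_le_mul_of_nonneg_left _ (by positivity)
      rw [hL]; linarith
    nlinarith
  have e4 : 7 * L * T ≤ 7 * L * (1 + w ^ 20 * (1 / √p)) :=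
    mul_le_mul_of_nonneg_left hTle (by positivity)
  have e5 : 7 * L * H * ((1 + Real.log p) / (p : ℝ) ^ 2) = 7 * L * D * (1 + Real.log p) := by
    rw [hD]; ring
  rw [e5]
  nlinarith [mul_nonneg (mul_nonneg (by linarith : (0:ℝ) ≤ L) hD0) hlogp]

/-- **The number of bad `n`.** -/
theorem card_bad (X H z : ℕ) (w : ℝ) (hw : 2 ≤ w) (hwH : w ^ 30 = H) (hz : 2 ≤ z)
    (hzw : (z : ℝ) ≤ w ^ 18)
    (hHX : H ≤ X) (hX : X ≤ H ^ 2) (hX4 : H ^ 2 ≤ 4 * X) (A : Finset ℕ)
    (hA : ∀ n ∈ A, n ∈ Bad X H z) :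
    (A.card : ℝ) ≤ 8 * (1 + Real.log (2 * H)) * H * ((2 + Real.log z) / z) +
      60 * (1 + Real.log (2 * H)) * w ^ 29 := by
  classical
  have hw0 : 0 < w := by linarith
  have hw1 : 1 ≤ w := by linarith
  have hH0 : (1 : ℝ) ≤ H := by rw [← hwH]; exact one_le_pow₀ hw1
  have hH : 0 < H := by
    have : (0 : ℝ) < H := by linarith
    exact_mod_cast this
  set P := ⌈w ^ 18⌉₊ with hP
  set M := ⌈2 * w ^ 24⌉₊ with hM
  have hzP : z ≤ P := by
    have : (z : ℝ) ≤ P := hzw.trans (Nat.le_ceil _)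
    exact_mod_cast this
  have hPge : w ^ 18 ≤ P := Nat.le_ceil _
  have hMge : 2 * w ^ 24 ≤ M := Nat.le_ceil _
  have hw18 : 1 ≤ w ^ 18 := one_le_pow₀ hw1
  have hw24 : 1 ≤ w ^ 24 := one_le_pow₀ hw1
  have hPle : (P : ℝ) ≤ 2 * w ^ 18 := by
    have := (Nat.ceil_lt_add_one (show 0 ≤ w ^ 18 by positivity)).le
    rw [← hP] at this; linarith
  have hMle : (M : ℝ) ≤ 3 * w ^ 24 := by
    have := (Nat.ceil_lt_add_one (show 0 ≤ 2 * w ^ 24 by positivity)).le
    rw [← hM] at this; linarith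
  have hP1 : 1 ≤ P := by
    have : (1 : ℝ) ≤ P := hw18.trans hPge
    exact_mod_cast this
  have hM1 : 1 ≤ M := by
    have : (1 : ℝ) ≤ M := by linarith
    exact_mod_cast this
  have hPH : (P : ℝ) ≤ H := by
    rw [← hwH]
    calc (P : ℝ) ≤ 2 * w ^ 18 := hPle
      _ ≤ w ^ 12 * w ^ 18 := by
          apply mul_le_mul_of_nonneg_right _ (by positivity)
          calc (2 : ℝ) ≤ w := hw
            _ ≤ w ^ 12 := le_self_pow₀ hw1 (by norm_num)
      _ = w ^ 30 := by ring
  have hPH' : P ≤ H := by exact_mod_cast hPH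
  have hMX : 2 * X ≤ M * P ^ 2 := by
    have h1 : (2 : ℝ) * X ≤ M * P ^ 2 := by
      have h2 : (X : ℝ) ≤ w ^ 60 := by
        have : (X : ℝ) ≤ (H : ℝ) ^ 2 := by exact_mod_cast hX
        rw [← hwH] at this
        calc (X : ℝ) ≤ (w ^ 30) ^ 2 := this
          _ = w ^ 60 := by ring
      calc (2 : ℝ) * X ≤ 2 * w ^ 60 := by linarith
        _ = (2 * w ^ 24) * (w ^ 18) ^ 2 := by ring
        _ ≤ M * P ^ 2 := by
            apply mul_le_mul hMge (pow_le_pow_left₀ (by positivity) hPge 2) (by positivity)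
              (by positivity)
    exact_mod_cast h1
  set L := 1 + Real.log (2 * H) with hL
  have hlogH : 0 ≤ Real.log (2 * H) := Real.log_nonneg (by linarith)
  have hL1 : 1 ≤ L := by rw [hL]; linarith
  -- decomposition
  let A1 : ℕ → Finset ℕ := fun p => A.filter (fun n => n ∈ NP X H p)
  let A2 : ℕ → Finset ℕ := fun p => A.filter (fun n => p ^ 2 ∣ n)
  let A3 := A.filter (fun n => ∃ p m, P < p ∧ ((∃ k, 1 ≤ k ∧ n = p * m * (1 + p * k)) ∨
      n = p ^ 2 * m))
  have hsub : A ⊆ ((Ioc z P).biUnion A1 ∪ (Ioc z P).biUnion A2) ∪ A3 := by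
    intro n hn
    obtain ⟨h1, h2, p, hp, hzp, h⟩ := hA n hn
    have h' : (∃ m k, 1 ≤ k ∧ n = p * m * (1 + p * k)) ∨ ∃ m, n = p ^ 2 * m := by
      rcases h with h | ⟨q, hq, hpq, c, hc⟩
      · right; exact h
      · left
        obtain ⟨k, hk⟩ := hpq
        have hq2 := hq.two_le
        have hk1 : 1 ≤ k := by
          rcases Nat.eq_zero_or_pos k with h0 | h0
          · subst h0; omega
          · exact h0
        refine ⟨c, k, hk1, ?_⟩
        rw [hc]
        have : q = 1 + p * k := by omega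
        rw [this]; ring
    rcases Nat.lt_or_ge P p with hPp | hPp
    · apply mem_union_right
      rw [mem_filter]
      refine ⟨hn, ?_⟩
      rcases h' with ⟨m, k, hk, h'⟩ | ⟨m, h'⟩
      · exact ⟨p, m, hPp, Or.inl ⟨k, hk, h'⟩⟩
      · exact ⟨p, m, hPp, Or.inr h'⟩
    · apply mem_union_left
      rcases h' with ⟨m, k, hk, h'⟩ | ⟨m, h'⟩
      · apply mem_union_left
        rw [mem_biUnion]
        exact ⟨p, mem_Ioc.2 ⟨hzp, hPp⟩, mem_filter.2 ⟨hn, h1, h2, m, k, hk, h'⟩⟩
      · apply mem_union_right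
        rw [mem_biUnion]
        exact ⟨p, mem_Ioc.2 ⟨hzp, hPp⟩, mem_filter.2 ⟨hn, m, h'⟩⟩
  have hc : (A.card : ℝ) ≤ ∑ p ∈ Ioc z P, (((A1 p).card : ℕ) : ℝ) +
      ∑ p ∈ Ioc z P, (((A2 p).card : ℕ) : ℝ) + A3.card := by
    have h1 : A.card ≤ ∑ p ∈ Ioc z P, (A1 p).card + ∑ p ∈ Ioc z P, (A2 p).card + A3.card :=
      (Finset.card_le_card hsub).trans ((Finset.card_union_le _ _).trans
        (Nat.add_le_add_right ((Finset.card_union_le _ _).trans
          (Nat.add_le_add Finset.card_biUnion_le Finset.card_biUnion_le)) _))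
    exact_mod_cast h1
  have b1 : ∑ p ∈ Ioc z P, (((A1 p).card : ℕ) : ℝ) ≤
      7 * L * H * ((2 + Real.log z) / z) + 7 * L * (P + w ^ 20 * (2 * √P)) := by
    calc ∑ p ∈ Ioc z P, (((A1 p).card : ℕ) : ℝ)
        ≤ ∑ p ∈ Ioc z P, (7 * L * H * ((1 + Real.log p) / (p : ℝ) ^ 2) +
          7 * L * (1 + w ^ 20 * (1 / √p))) := by
          apply Finset.sum_le_sum
          intro p hp
          rw [mem_Ioc] at hp
          exact card_NP' X H p w hw hwH (by omega) (by omega) hHX hX _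
            (fun n hn => (mem_filter.1 hn).2)
      _ = 7 * L * H * ∑ p ∈ Ioc z P, ((1 + Real.log p) / (p : ℝ) ^ 2) +
          7 * L * (∑ p ∈ Ioc z P, (1 : ℝ) + w ^ 20 * ∑ p ∈ Ioc z P, 1 / √(p : ℝ)) := by
          rw [Finset.sum_add_distrib, ← Finset.mul_sum, ← Finset.mul_sum, Finset.sum_add_distrib,
            ← Finset.mul_sum]
      _ ≤ 7 * L * H * ((2 + Real.log z) / z) + 7 * L * (P + w ^ 20 * (2 * √P)) := by
          apply add_le_add
          · apply mul_le_mul_of_nonneg_left (sum_log_div_sq z P hz hzP) (by positivity)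
          · apply mul_le_mul_of_nonneg_left _ (by positivity)
            apply add_le_add
            · rw [Finset.sum_const, nsmul_eq_mul, mul_one, Nat.card_Ioc]
              exact_mod_cast Nat.sub_le _ _
            · apply mul_le_mul_of_nonneg_left (sum_inv_sqrt z P) (by positivity)
  have b2 : ∑ p ∈ Ioc z P, (((A2 p).card : ℕ) : ℝ) ≤ H * (1 / z) + P := by
    calc ∑ p ∈ Ioc z P, (((A2 p).card : ℕ) : ℝ)
        ≤ ∑ p ∈ Ioc z P, (1 + (H : ℝ) * (1 / (p : ℝ) ^ 2)) := by
          apply Finset.sum_le_sum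
          intro p hp
          rw [mem_Ioc] at hp
          have := card_le_of_modEq (A2 p) X H (p ^ 2) (by
            have : 0 < p := by omega
            positivity) (fun u hu => by
            have := hA u (mem_filter.1 hu).1
            exact ⟨this.1, this.2.1⟩)
            (fun u hu v hv => by
              have h1 := (mem_filter.1 hu).2
              have h2 := (mem_filter.1 hv).2
              exact ((Nat.modEq_zero_iff_dvd.2 h1).trans (Nat.modEq_zero_iff_dvd.2 h2).symm))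
          push_cast at this
          rw [mul_one_div]
          exact this
      _ = ∑ p ∈ Ioc z P, (1 : ℝ) + H * ∑ p ∈ Ioc z P, (1 : ℝ) / (p : ℝ) ^ 2 := by
          rw [Finset.sum_add_distrib, ← Finset.mul_sum]
      _ ≤ P + H * (1 / z) := by
          apply add_le_add
          · rw [Finset.sum_const, nsmul_eq_mul, mul_one, Nat.card_Ioc]
            exact_mod_cast Nat.sub_le _ _
          · apply mul_le_mul_of_nonneg_left (sum_inv_sq z P (by omega) hzP) (by positivity)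
      _ = _ := by ring
  have b3 : (A3.card : ℝ) ≤ 2 * (M * (1 + Real.log M)) + M := by
    apply card_big X H P M hP1 hHX hX4 hM1 hMX
    intro n hn
    obtain ⟨hnA, h⟩ := mem_filter.1 hn
    have := hA n hnA
    exact ⟨this.1, this.2.1, h⟩
  -- numerical estimates
  have hsq : √(P : ℝ) ≤ 2 * w ^ 9 := by
    rw [Real.sqrt_le_left (by positivity)]
    calc (P : ℝ) ≤ 2 * w ^ 18 := hPle
      _ ≤ 4 * w ^ 18 := by nlinarith
      _ = (2 * w ^ 9) ^ 2 := by ring
  have c1 : w ^ 20 * (2 * √P) ≤ 4 * w ^ 29 := by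
    calc w ^ 20 * (2 * √P) ≤ w ^ 20 * (2 * (2 * w ^ 9)) := by
          apply mul_le_mul_of_nonneg_left _ (by positivity); linarith
      _ = 4 * w ^ 29 := by ring
  have c2 : w ^ 18 ≤ w ^ 29 := pow_le_pow_right₀ hw1 (by norm_num)
  have c3 : w ^ 24 ≤ w ^ 29 := pow_le_pow_right₀ hw1 (by norm_num)
  have c4 : Real.log M ≤ Real.log (2 * H) := by
    apply Real.log_le_log (by exact_mod_cast hM1)
    rw [← hwH]
    calc (M : ℝ) ≤ 3 * w ^ 24 := hMle
      _ ≤ 2 * w ^ 30 := by
        have : (2 : ℝ) ≤ w ^ 6 := by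
          calc (2 : ℝ) ≤ w := hw
            _ ≤ w ^ 6 := le_self_pow₀ hw1 (by norm_num)
        have h5 : w ^ 30 = w ^ 6 * w ^ 24 := by ring
        rw [h5]
        nlinarith
  have c5 : (1 : ℝ) / z ≤ (2 + Real.log z) / z := by
    apply div_le_div_of_nonneg_right _ (by positivity)
    have : 0 ≤ Real.log z := Real.log_natCast_nonneg z
    linarith
  have c6 : (H : ℝ) * (1 / z) ≤ L * H * ((2 + Real.log z) / z) := by
    calc (H : ℝ) * (1 / z) ≤ H * ((2 + Real.log z) / z) :=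
          mul_le_mul_of_nonneg_left c5 (by positivity)
      _ ≤ L * (H * ((2 + Real.log z) / z)) := by
          apply le_mul_of_one_le_left _ hL1
          have : 0 ≤ Real.log z := Real.log_natCast_nonneg z
          positivity
      _ = _ := by ring
  have c7 : 7 * L * (P + w ^ 20 * (2 * √P)) ≤ 42 * L * w ^ 29 := by
    calc 7 * L * (P + w ^ 20 * (2 * √P)) ≤ 7 * L * (6 * w ^ 29) := by
          apply mul_le_mul_of_nonneg_left _ (by positivity)
          linarith
      _ = _ := by ring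
  have hw29 : 0 ≤ w ^ 29 := by positivity
  have c8 : (P : ℝ) ≤ 2 * L * w ^ 29 := by nlinarith
  have c9 : 2 * (M * (1 + Real.log M)) + M ≤ 9 * L * w ^ 29 := by
    have h1 : 2 * (M * (1 + Real.log M)) ≤ 2 * ((3 * w ^ 29) * L) := by
      apply mul_le_mul_of_nonneg_left _ (by norm_num)
      apply mul_le_mul
      · linarith
      · rw [hL]; linarith
      · have : 0 ≤ Real.log M := Real.log_natCast_nonneg M
        positivity
      · positivity
    have h2 : (M : ℝ) ≤ 3 * L * w ^ 29 := by nlinarith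
    linarith
  have hLw : 0 ≤ L * w ^ 29 := by positivity
  nlinarith

end Pool.Agent.Helper15.SG
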