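import Pool.Agent.Helper15.SG.Np

set_option autoImplicit false

/-!
# Multiples of `p q`, `q ≡ 1 (mod p)`, with `p` large
-/

namespace Pool.Agent.Helper15.SG

open Finset

/-- for given `m, k` there are at most two `p` -/
theorem card_p_le (X H m k : ℕ) (hm : 1 ≤ m) (hk : 1 ≤ k) (hHX : H ^ 2 ≤ 4 * X) (S : Finset ℕ)
    (hS : ∀ p ∈ S, 1 ≤ p ∧ X < p * m * (1 + p * k) ∧ p * m * (1 + p * k) ≤ X + H) :
    (S.card : ℝ) ≤ 2 := by
  have h := card_le_of_sep S 1 1 one_pos zero_le_one ?_ ?_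
  · exact h.trans (by norm_num)
  · intro u _ v _ huv
    have : (u : ℝ) + 1 ≤ v := by exact_mod_cast huv
    linarith
  · intro u hu v hv huv
    by_contra hc
    push Not at hc
    have h2 : u + 2 ≤ v := by
      by_contra h3
      have : v = u + 1 := by omega
      subst this
      push_cast at hc
      linarith
    obtain ⟨a1, a2, a3⟩ := hS u hu
    obtain ⟨b1, b2, b3⟩ := hS v hv
    -- m * (v - u) * 2 k u < H
    have e1 : 4 * m * k * u < H := by
      have : u * m * (1 + u * k) + 4 * m * k * u ≤ v * m * (1 + v * k) := by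
        calc u * m * (1 + u * k) + 4 * m * k * u ≤ (u + 2) * m * (1 + (u + 2) * k) := by nlinarith
          _ ≤ v * m * (1 + v * k) := by gcongr
      omega
    have e2 : X < 2 * m * k * u ^ 2 := by
      have : u * m * (1 + u * k) ≤ 2 * m * k * u ^ 2 := by
        have : 1 ≤ u * k := Nat.mul_pos a1 hk
        calc u * m * (1 + u * k) ≤ u * m * (u * k + u * k) := by gcongr
          _ = 2 * m * k * u ^ 2 := by ring
      omega
    have e3 : (4 * m * k * u) ^ 2 < H ^ 2 := by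
      apply Nat.pow_lt_pow_left e1 (by norm_num)
    have e4 : 16 * (m * k) * (m * k * u ^ 2) < 8 * (m * k * u ^ 2) := by nlinarith
    have e5 : 1 ≤ m * k := Nat.mul_pos hm hk
    have e6 : 0 < m * k * u ^ 2 := by positivity
    nlinarith

theorem card_sq_le (X H m : ℕ) (hm : 1 ≤ m) (hHX : H ^ 2 ≤ 4 * X) (S : Finset ℕ)
    (hS : ∀ p ∈ S, 1 ≤ p ∧ X < p ^ 2 * m ∧ p ^ 2 * m ≤ X + H) :
    (S.card : ℝ) ≤ 1 := by
  have h : S.card ≤ 1 := by
    rw [Finset.card_le_one]
    have key : ∀ u ∈ S, ∀ v ∈ S, ¬ u < v := by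
      intro u hu v hv huv
      obtain ⟨a1, a2, a3⟩ := hS u hu
      obtain ⟨b1, b2, b3⟩ := hS v hv
      have e1 : 2 * m * u < H := by
        have : u ^ 2 * m + 2 * m * u + m ≤ v ^ 2 * m := by
          calc u ^ 2 * m + 2 * m * u + m = (u + 1) ^ 2 * m := by ring
            _ ≤ v ^ 2 * m := by gcongr; omega
        omega
      have e3 : (2 * m * u) ^ 2 < H ^ 2 := Nat.pow_lt_pow_left e1 (by norm_num)
      have e4 : 4 * m * (u ^ 2 * m) < 4 * (u ^ 2 * m) := by nlinarith
      have e6 : 0 < u ^ 2 * m := by positivity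
      nlinarith
    intro u hu v hv
    have := key u hu v hv
    have := key v hv u hu
    omega
  exact_mod_cast h

/-- numbers in `(X, X + H]` which are multiples of `p (1 + p k)`, `k ≥ 1`, or of `p²` for some `p > P` -/
theorem card_big (X H P M : ℕ) (hP : 1 ≤ P) (hH : H ≤ X) (hHX : H ^ 2 ≤ 4 * X) (hM : 1 ≤ M)
    (hMX : 2 * X ≤ M * P ^ 2) (A : Finset ℕ)
    (hA : ∀ n ∈ A, X < n ∧ n ≤ X + H ∧ ∃ p m, P < p ∧ ((∃ k, 1 ≤ k ∧ n = p * m * (1 + p * k)) ∨
      n = p ^ 2 * m)) :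
    (A.card : ℝ) ≤ 2 * (M * (1 + Real.log M)) + M := by
  classical
  let A1 := A.filter (fun n => ∃ p m k, P < p ∧ 1 ≤ k ∧ n = p * m * (1 + p * k))
  let A2 := A.filter (fun n => ∃ p m, P < p ∧ n = p ^ 2 * m)
  have hsub : A ⊆ A1 ∪ A2 := by
    intro n hn
    obtain ⟨_, _, p, m, hp, h | h⟩ := hA n hn
    · obtain ⟨k, hk, h⟩ := h
      exact mem_union_left _ (mem_filter.2 ⟨hn, p, m, k, hp, hk, h⟩)
    · exact mem_union_right _ (mem_filter.2 ⟨hn, p, m, hp, h⟩)
  have hc : (A.card : ℝ) ≤ A1.card + A2.card := by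
    exact_mod_cast (Finset.card_le_card hsub).trans (Finset.card_union_le _ _)
  have b1 : (A1.card : ℝ) ≤ 2 * (M * (1 + Real.log M)) := by
    let PR := (Icc 1 M ×ˢ Icc 1 M).filter (fun x : ℕ × ℕ => x.1 * x.2 ≤ M)
    let B : ℕ × ℕ → Finset ℕ := fun x => (Icc 1 (X + H)).filter (fun p =>
      X < p * x.1 * (1 + p * x.2) ∧ p * x.1 * (1 + p * x.2) ≤ X + H)
    have hs : A1 ⊆ PR.biUnion (fun x => (B x).image (fun p => p * x.1 * (1 + p * x.2))) := by
      intro n hn
      obtain ⟨hnA, p, m, k, hp, hk, h⟩ := mem_filter.1 hn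
      obtain ⟨h1, h2, _⟩ := hA n hnA
      have hm : 1 ≤ m := by
        rcases Nat.eq_zero_or_pos m with h0 | h0
        · subst h0; simp at h; omega
        · exact h0
      have hmk : m * k ≤ M := by
        by_contra hc
        push Not at hc
        have e1 : P ^ 2 * (M + 1) ≤ n := by
          calc P ^ 2 * (M + 1) ≤ p ^ 2 * (m * k) := by
                apply Nat.mul_le_mul _ hc
                exact Nat.pow_le_pow_left hp.le 2
            _ ≤ p * m * (1 + p * k) := by nlinarith [Nat.zero_le (p * m)]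
            _ = n := h.symm
        have e2 : P ^ 2 * (M + 1) = M * P ^ 2 + P ^ 2 := by ring
        have e3 : 1 ≤ P ^ 2 := Nat.one_le_pow _ _ hP
        omega
      rw [mem_biUnion]
      refine ⟨(m, k), ?_, ?_⟩
      · rw [mem_filter, mem_product, mem_Icc, mem_Icc]
        refine ⟨⟨⟨hm, ?_⟩, ⟨hk, ?_⟩⟩, hmk⟩
        · exact (Nat.le_mul_of_pos_right _ hk).trans hmk
        · exact (Nat.le_mul_of_pos_left _ hm).trans hmk
      · rw [mem_image]
        refine ⟨p, ?_, h.symm⟩
        rw [mem_filter, mem_Icc]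
        refine ⟨⟨by omega, ?_⟩, h ▸ h1, h ▸ h2⟩
        refine le_trans ?_ h2
        rw [h]
        calc p = p * 1 * 1 := by ring
          _ ≤ p * m * (1 + p * k) := by gcongr; omega
    have h1 : (A1.card : ℝ) ≤ ∑ x ∈ PR, (((B x).card : ℕ) : ℝ) := by
      have := (Finset.card_le_card hs).trans (Finset.card_biUnion_le.trans
        (Finset.sum_le_sum (fun x _ => Finset.card_image_le)))
      exact_mod_cast this
    have h2 : ∀ x ∈ PR, (((B x).card : ℕ) : ℝ) ≤ 2 := by
      intro x hx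
      rw [mem_filter, mem_product, mem_Icc, mem_Icc] at hx
      apply card_p_le X H x.1 x.2 hx.1.1.1 hx.1.2.1 hHX
      intro p hp
      obtain ⟨h3, h4⟩ := mem_filter.1 hp
      exact ⟨(mem_Icc.1 h3).1, h4⟩
    calc (A1.card : ℝ) ≤ ∑ x ∈ PR, (((B x).card : ℕ) : ℝ) := h1
      _ ≤ ∑ x ∈ PR, (2 : ℝ) := Finset.sum_le_sum h2
      _ = 2 * PR.card := by rw [Finset.sum_const, nsmul_eq_mul]; ring
      _ ≤ 2 * (M * (1 + Real.log M)) := by
          apply mul_le_mul_of_nonneg_left (card_pairs M hM) (by norm_num)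
  have b2 : (A2.card : ℝ) ≤ M := by
    let B : ℕ → Finset ℕ := fun m => (Icc 1 (X + H)).filter (fun p =>
      X < p ^ 2 * m ∧ p ^ 2 * m ≤ X + H)
    have hs : A2 ⊆ (Icc 1 M).biUnion (fun m => (B m).image (fun p => p ^ 2 * m)) := by
      intro n hn
      obtain ⟨hnA, p, m, hp, h⟩ := mem_filter.1 hn
      obtain ⟨h1, h2, _⟩ := hA n hnA
      have hm : 1 ≤ m := by
        rcases Nat.eq_zero_or_pos m with h0 | h0
        · subst h0; simp at h; omega
        · exact h0
      have hmM : m ≤ M := by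
        by_contra hc
        push Not at hc
        have e1 : P ^ 2 * (M + 1) ≤ n := by
          rw [h]
          apply Nat.mul_le_mul _ hc
          exact Nat.pow_le_pow_left hp.le 2
        have e2 : P ^ 2 * (M + 1) = M * P ^ 2 + P ^ 2 := by ring
        have e3 : 1 ≤ P ^ 2 := Nat.one_le_pow _ _ hP
        omega
      rw [mem_biUnion]
      refine ⟨m, mem_Icc.2 ⟨hm, hmM⟩, ?_⟩
      rw [mem_image]
      refine ⟨p, ?_, h.symm⟩
      rw [mem_filter, mem_Icc]
      refine ⟨⟨by omega, ?_⟩, h ▸ h1, h ▸ h2⟩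
      refine le_trans ?_ h2
      rw [h]
      calc p = p * 1 := by ring
        _ ≤ p ^ 2 * m := by
          apply Nat.mul_le_mul _ hm
          exact Nat.le_self_pow (by norm_num) _
    have h1 : (A2.card : ℝ) ≤ ∑ x ∈ Icc 1 M, (((B x).card : ℕ) : ℝ) := by
      have := (Finset.card_le_card hs).trans (Finset.card_biUnion_le.trans
        (Finset.sum_le_sum (fun x _ => Finset.card_image_le)))
      exact_mod_cast this
    have h2 : ∀ x ∈ Icc 1 M, (((B x).card : ℕ) : ℝ) ≤ 1 := by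
      intro x hx
      rw [mem_Icc] at hx
      apply card_sq_le X H x hx.1 hHX
      intro p hp
      obtain ⟨h3, h4⟩ := mem_filter.1 hp
      exact ⟨(mem_Icc.1 h3).1, h4⟩
    calc (A2.card : ℝ) ≤ ∑ x ∈ Icc 1 M, (((B x).card : ℕ) : ℝ) := h1
      _ ≤ ∑ x ∈ Icc 1 M, (1 : ℝ) := Finset.sum_le_sum h2
      _ = M := by simp
  linarith

end Pool.Agent.Helper15.SG
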