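import Mathlib

set_option autoImplicit false

/-!
# Counting separated points, and lattice points near a hyperbola
-/

namespace Pool.Agent.Helper15.SG

/-- A `g`-separated finite set of diameter at most `D` has at most `1 + D / g` elements. -/
theorem card_le_of_sep (S : Finset ℕ) (g D : ℝ) (hg : 0 < g) (hD : 0 ≤ D)
    (hsep : ∀ u ∈ S, ∀ v ∈ S, u < v → g ≤ (v : ℝ) - u)
    (hdiam : ∀ u ∈ S, ∀ v ∈ S, u < v → (v : ℝ) - u ≤ D) : (S.card : ℝ) ≤ 1 + D / g := by
  rcases S.eq_empty_or_nonempty with rfl | hne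
  · simp; positivity
  set m := S.min' hne with hm
  have hmS : m ∈ S := S.min'_mem hne
  have hle : ∀ u ∈ S, m ≤ u := fun u hu => S.min'_le u hu
  have hinj : Set.InjOn (fun u : ℕ => ⌊((u : ℝ) - m) / g⌋₊) S := by
    have key : ∀ u ∈ S, ∀ v ∈ S, u < v → ⌊((u : ℝ) - m) / g⌋₊ < ⌊((v : ℝ) - m) / g⌋₊ := by
      intro u hu v hv huv
      have h0 : (0 : ℝ) ≤ ((u : ℝ) - m) / g := by
        apply div_nonneg _ hg.le
        have : (m : ℝ) ≤ u := by exact_mod_cast hle u hu
        linarith
      have h1 : ((u : ℝ) - m) / g + 1 ≤ ((v : ℝ) - m) / g := by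
        rw [div_add_one hg.ne']
        apply div_le_div_of_nonneg_right _ hg.le
        linarith [hsep u hu v hv huv]
      have h2 := Nat.floor_le_floor h1
      rw [Nat.floor_add_one h0] at h2
      exact Nat.lt_of_succ_le h2
    intro u hu v hv huv
    rcases lt_trichotomy u v with h | h | h
    · exact absurd huv (key u hu v hv h).ne
    · exact h
    · exact absurd huv (key v hv u hu h).ne'
  have hmaps : Set.MapsTo (fun u : ℕ => ⌊((u : ℝ) - m) / g⌋₊) S
      (Finset.range (⌊D / g⌋₊ + 1)) := by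
    intro u hu
    simp only [Finset.coe_range, Set.mem_Iio]
    apply Nat.lt_succ_of_le
    apply Nat.floor_le_floor
    apply div_le_div_of_nonneg_right _ hg.le
    rcases (hle u hu).eq_or_lt with h | h
    · rw [← h]; simp; exact hD
    · exact hdiam m hmS u hu h
  have h := Finset.card_le_card_of_injOn _ hmaps hinj
  rw [Finset.card_range] at h
  have h2 : ((⌊D / g⌋₊ : ℕ) : ℝ) ≤ D / g := Nat.floor_le (by positivity)
  have h3 : (S.card : ℝ) ≤ (⌊D / g⌋₊ : ℝ) + 1 := by exact_mod_cast h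
  linarith

/-- Pairwise congruent numbers in an interval of length `H`. -/
theorem card_le_of_modEq (S : Finset ℕ) (X H m : ℕ) (hm : 0 < m)
    (hS : ∀ u ∈ S, X < u ∧ u ≤ X + H) (hc : ∀ u ∈ S, ∀ v ∈ S, u ≡ v [MOD m]) :
    (S.card : ℝ) ≤ 1 + H / m := by
  apply card_le_of_sep S m H (by exact_mod_cast hm) (by positivity)
  · intro u hu v hv huv
    have h1 : m ∣ v - u := (Nat.modEq_iff_dvd' huv.le).1 (hc u hu v hv)
    have h2 : m ≤ v - u := Nat.le_of_dvd (by omega) h1
    have h3 : (m : ℝ) ≤ ((v - u : ℕ) : ℝ) := by exact_mod_cast h2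
    rwa [Nat.cast_sub huv.le] at h3
  · intro u hu v hv huv
    have h1 := hS u hu
    have h2 := hS v hv
    have h3 : ((v - u : ℕ) : ℝ) ≤ (H : ℝ) := by
      have : v - u ≤ H := by omega
      exact_mod_cast this
    rwa [Nat.cast_sub huv.le] at h3

/-- harmonic sums over an interval -/
theorem sum_inv_Icc_le (a b : ℕ) (ha : 1 ≤ a) (hab : a ≤ b) :
    ∑ h ∈ Finset.Icc a b, (1 : ℝ) / h ≤ 1 + Real.log (b / a) := by
  induction b, hab using Nat.le_induction with
  | base =>
    have h1 : (0 : ℝ) < a := by exact_mod_cast ha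
    have h2 : (1 : ℝ) ≤ a := by exact_mod_cast ha
    simp only [Finset.Icc_self, Finset.sum_singleton]
    rw [div_self h1.ne', Real.log_one, add_zero]
    rw [div_le_one h1]; exact h2
  | succ n hn ih =>
    have han : a ≤ n + 1 := by omega
    rw [Finset.sum_Icc_succ_top han]
    have h1 : (0 : ℝ) < a := by exact_mod_cast ha
    have hn0 : (0 : ℝ) < n := by
      have : 0 < n := by omega
      exact_mod_cast this
    have h3 : (1 : ℝ) / ((n + 1 : ℕ) : ℝ) ≤ Real.log (((n + 1 : ℕ) : ℝ) / a) - Real.log (n / a) := by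
      rw [Real.log_div (by positivity) h1.ne', Real.log_div hn0.ne' h1.ne']
      have h4 : Real.log (n : ℝ) - Real.log ((n + 1 : ℕ) : ℝ) ≤ (n : ℝ) / ((n + 1 : ℕ) : ℝ) - 1 := by
        rw [← Real.log_div hn0.ne' (by positivity)]
        exact Real.log_le_sub_one_of_pos (by positivity)
      have h5 : (n : ℝ) / ((n + 1 : ℕ) : ℝ) - 1 = - (1 / ((n + 1 : ℕ) : ℝ)) := by
        push_cast
        field_simp
        ring
      rw [h5] at h4
      linarith
    linarith

theorem sum_inv_Icc_one_le (b : ℕ) (hb : 1 ≤ b) :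
    ∑ h ∈ Finset.Icc 1 b, (1 : ℝ) / h ≤ 1 + Real.log b := by
  have := sum_inv_Icc_le 1 b le_rfl hb
  simpa using this

end Pool.Agent.Helper15.SG
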