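import Mathlib
import Pool.Agent.Helper15.SG.Sep

/-! The residue classes `a mod Q` with `a (2 a + 1)` coprime to `Q`. -/

namespace Pool.Agent.Helper15.SG

open Finset

/-- good residues -/
def G (Q : ℕ) : Finset ℕ := (range Q).filter (fun a => Nat.Coprime (a * (2 * a + 1)) Q)

theorem card_badj1 (Q p a : ℕ) (hp : p.Prime) (hpQ : ¬ p ∣ Q) :
    ((range p).filter (fun j => p ∣ a + j * Q)).card ≤ 1 := by
  rw [card_le_one]
  intro i hi j hj
  rw [mem_filter, mem_range] at hi hj
  have h : i * Q ≡ j * Q [MOD p] := by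
    have : a + i * Q ≡ a + j * Q [MOD p] :=
      ((Nat.modEq_zero_iff_dvd).2 hi.2).trans ((Nat.modEq_zero_iff_dvd).2 hj.2).symm
    exact Nat.ModEq.add_left_cancel' a this
  have h2 : i ≡ j [MOD p] := by
    apply Nat.ModEq.cancel_right_of_coprime _ h
    exact (Nat.Prime.coprime_iff_not_dvd hp).2 hpQ
  exact Nat.ModEq.eq_of_lt_of_lt h2 hi.1 hj.1

theorem card_badj2 (Q p a : ℕ) (hp : p.Prime) (hpQ : ¬ p ∣ Q) :
    ((range p).filter (fun j => p ∣ 2 * (a + j * Q) + 1)).card ≤ 1 := by
  rw [card_le_one]
  intro i hi j hj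
  rw [mem_filter, mem_range] at hi hj
  by_cases hp2 : p = 2
  · exfalso
    subst hp2
    omega
  have h : i * Q ≡ j * Q [MOD p] := by
    have h0 : 2 * (a + i * Q) + 1 ≡ 2 * (a + j * Q) + 1 [MOD p] :=
      ((Nat.modEq_zero_iff_dvd).2 hi.2).trans ((Nat.modEq_zero_iff_dvd).2 hj.2).symm
    have h1 : 2 * (a + i * Q) ≡ 2 * (a + j * Q) [MOD p] := Nat.ModEq.add_right_cancel' 1 h0
    have h2 : (a + i * Q) ≡ (a + j * Q) [MOD p] := by
      apply Nat.ModEq.cancel_left_of_coprime _ h1
      exact (Nat.coprime_primes hp Nat.prime_two).2 hp2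
    exact Nat.ModEq.add_left_cancel' a h2
  have h2 : i ≡ j [MOD p] := by
    apply Nat.ModEq.cancel_right_of_coprime _ h
    exact (Nat.Prime.coprime_iff_not_dvd hp).2 hpQ
  exact Nat.ModEq.eq_of_lt_of_lt h2 hi.1 hj.1

theorem card_goodj (Q p a : ℕ) (hp : p.Prime) (hpQ : ¬ p ∣ Q) :
    p - 2 ≤ ((range p).filter (fun j => ¬ p ∣ (a + j * Q) * (2 * (a + j * Q) + 1))).card ∧
    1 ≤ ((range p).filter (fun j => ¬ p ∣ (a + j * Q) * (2 * (a + j * Q) + 1))).card := by
  set B := (range p).filter (fun j => p ∣ (a + j * Q) * (2 * (a + j * Q) + 1)) with hB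
  have h1 : ((range p).filter (fun j => ¬ p ∣ (a + j * Q) * (2 * (a + j * Q) + 1))).card
      + B.card = p := by
    rw [hB, add_comm, card_filter_add_card_filter_not, card_range]
  have hsub : B ⊆ (range p).filter (fun j => p ∣ a + j * Q) ∪
      (range p).filter (fun j => p ∣ 2 * (a + j * Q) + 1) := by
    intro j hj
    rw [hB, mem_filter] at hj
    rw [mem_union, mem_filter, mem_filter]
    rcases (hp.dvd_mul).1 hj.2 with h | h
    · exact Or.inl ⟨hj.1, h⟩
    · exact Or.inr ⟨hj.1, h⟩
  have hc := (card_le_card hsub).trans (card_union_le _ _)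
  have hc1 := card_badj1 Q p a hp hpQ
  have hc2 := card_badj2 Q p a hp hpQ
  refine ⟨by omega, ?_⟩
  rcases hp.eq_two_or_odd with h2 | h2
  · subst h2
    have : (range 2).filter (fun j => 2 ∣ 2 * (a + j * Q) + 1) = ∅ := by
      apply filter_eq_empty_iff.2
      intro j _
      omega
    rw [this] at hc
    simp only [card_empty] at hc
    omega
  · have := hp.two_le
    omega

theorem card_G_mul (Q p : ℕ) (hp : p.Prime) (hpQ : ¬ p ∣ Q) :
    (p - 2) * (G Q).card ≤ (G (p * Q)).card ∧ (G Q).card ≤ (G (p * Q)).card := by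
  classical
  have hQ : 0 < Q := Nat.pos_of_ne_zero (by rintro rfl; exact hpQ (dvd_zero p))
  set T := (G Q).sigma (fun a => (range p).filter
    (fun j => ¬ p ∣ (a + j * Q) * (2 * (a + j * Q) + 1))) with hT
  have hle : T.card ≤ (G (p * Q)).card := by
    apply card_le_card_of_injOn (fun x => x.1 + x.2 * Q)
    · intro x hx
      rw [mem_coe, hT, mem_sigma, mem_filter, mem_range] at hx
      obtain ⟨hx1, hx2, hx3⟩ := hx
      rw [G, mem_filter, mem_range] at hx1
      rw [mem_coe, G, mem_filter, mem_range]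
      refine ⟨?_, ?_⟩
      · calc x.1 + x.2 * Q < Q + x.2 * Q := by omega
          _ = (x.2 + 1) * Q := by ring
          _ ≤ p * Q := Nat.mul_le_mul_right _ hx2
      · apply Nat.Coprime.mul_right
        · exact ((Nat.Prime.coprime_iff_not_dvd hp).2 hx3).symm
        · have hmod : (x.1 + x.2 * Q) * (2 * (x.1 + x.2 * Q) + 1) =
              x.1 * (2 * x.1 + 1) + Q * (x.2 * (4 * x.1 + 2 * x.2 * Q + 1)) := by ring
          rw [hmod, Nat.coprime_add_mul_left_left]
          exact hx1.2
    · intro x hx y hy hxy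
      rw [mem_coe, hT, mem_sigma, G, mem_filter, mem_range] at hx hy
      simp only at hxy
      have h1 : x.1 = y.1 := by
        have := congrArg (· % Q) hxy
        simp only [Nat.add_mul_mod_self_right] at this
        rwa [Nat.mod_eq_of_lt hx.1.1, Nat.mod_eq_of_lt hy.1.1] at this
      have h2 : x.2 = y.2 := by
        rw [h1] at hxy
        exact Nat.eq_of_mul_eq_mul_right hQ (Nat.add_left_cancel hxy)
      exact Sigma.ext h1 (heq_of_eq h2)
  rw [hT, card_sigma] at hle
  constructor
  · refine le_trans ?_ hle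
    rw [mul_comm, ← smul_eq_mul]
    exact card_nsmul_le_sum _ _ _ (fun a _ => (card_goodj Q p a hp hpQ).1)
  · refine le_trans ?_ hle
    have := card_nsmul_le_sum (G Q) (fun a => ((range p).filter
      (fun j => ¬ p ∣ (a + j * Q) * (2 * (a + j * Q) + 1))).card) 1
      (fun a _ => (card_goodj Q p a hp hpQ).2)
    simpa using this

theorem Icc_succ_eq (y : ℕ) : Icc 1 (y + 1) = insert (y + 1) (Icc 1 y) := by
  ext a
  simp only [mem_Icc, mem_insert]
  omega

/-- the lower bound for the number of good residues -/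
theorem card_G_primorial (y : ℕ) :
    (primorial y : ℝ) * Real.exp (-(∑ p ∈ (Icc 1 y).filter Nat.Prime,
      (2 / (p : ℝ) + 12 / (p : ℝ) ^ 2))) ≤ ((G (primorial y)).card : ℝ) := by
  induction y with
  | zero =>
    have h1 : primorial 0 = 1 := by decide
    have h2 : (G 1).card = 1 := by decide
    rw [h1, h2]
    simp
  | succ y ih =>
    by_cases hp : (y + 1).Prime
    · have h1 : primorial (y + 1) = (y + 1) * primorial y := by
        rw [primorial, range_add_one, filter_insert, if_pos hp, prod_insert (by simp), primorial]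
      have h2 : (Icc 1 (y + 1)).filter Nat.Prime = insert (y + 1) ((Icc 1 y).filter Nat.Prime) := by
        rw [Icc_succ_eq, filter_insert, if_pos hp]
      have h3 : ¬ (y + 1) ∣ primorial y := by
        intro h
        have := (hp.dvd_primorial_iff).1 h
        omega
      have h4 := card_G_mul (primorial y) (y + 1) hp h3
      rw [h1, h2, sum_insert (by simp), neg_add, Real.exp_add]
      have hG0 : (0 : ℝ) ≤ ((G (primorial y)).card : ℝ) := by positivity
      by_cases hp2 : y + 1 = 2
      · have hy : y = 1 := by omega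
        subst hy
        have h5 : ((G (primorial 1)).card : ℝ) ≤ (G ((1 + 1) * primorial 1)).card := by
          exact_mod_cast h4.2
        refine le_trans ?_ (ih.trans h5)
        have h6 : Real.exp (-(2 / ((1 + 1 : ℕ) : ℝ) + 12 / ((1 + 1 : ℕ) : ℝ) ^ 2)) ≤ 1 / 2 := by
          have h60 : -(2 / ((1 + 1 : ℕ) : ℝ) + 12 / ((1 + 1 : ℕ) : ℝ) ^ 2) = -4 := by norm_num
          rw [h60, Real.exp_neg, inv_eq_one_div]
          apply one_div_le_one_div_of_le (by norm_num)
          have := Real.add_one_le_exp (4 : ℝ)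
          linarith
        push_cast
        push_cast at h6
        have h7 : (0 : ℝ) ≤ (primorial 1 : ℝ) *
            Real.exp (-(∑ p ∈ (Icc 1 1).filter Nat.Prime, (2 / (p : ℝ) + 12 / (p : ℝ) ^ 2))) := by
          positivity
        nlinarith
      · have hp3 : 3 ≤ y + 1 := by
          have := hp.two_le
          omega
        have h5 : (((y + 1 : ℕ) : ℝ) - 2) * ((G (primorial y)).card : ℝ) ≤
            (G ((y + 1) * primorial y)).card := by
          have h6 : (((y + 1 - 2 : ℕ) * (G (primorial y)).card : ℕ) : ℝ) ≤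
            ((G ((y + 1) * primorial y)).card : ℝ) := by exact_mod_cast h4.1
          rw [Nat.cast_mul, Nat.cast_sub (by omega)] at h6
          exact_mod_cast h6
        refine le_trans ?_ h5
        set P : ℝ := ((y + 1 : ℕ) : ℝ) with hP
        have hP3 : (3 : ℝ) ≤ P := by rw [hP]; exact_mod_cast hp3
        have h6 : P * Real.exp (-(2 / P + 12 / P ^ 2)) ≤ P - 2 := by
          have h7 : 1 - (1 - 2 / P)⁻¹ ≤ Real.log (1 - 2 / P) := by
            apply Real.one_sub_inv_le_log_of_pos
            have : 2 / P < 1 := by rw [div_lt_one (by linarith)]; linarith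
            linarith
          have h8 : -(2 / P + 12 / P ^ 2) ≤ 1 - (1 - 2 / P)⁻¹ := by
            have hP0 : P ≠ 0 := by linarith
            have hP2 : P - 2 ≠ 0 := by linarith
            have h9 : 1 - (1 - 2 / P)⁻¹ = -(2 / (P - 2)) := by
              have : (1 - 2 / P) = (P - 2) / P := by field_simp
              rw [this, inv_div]
              field_simp
              ring
            rw [h9, neg_le_neg_iff]
            rw [div_add_div _ _ hP0 (by positivity), div_le_div_iff₀ (by linarith) (by positivity)]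
            nlinarith
          have h10 : Real.exp (-(2 / P + 12 / P ^ 2)) ≤ 1 - 2 / P := by
            rw [← Real.exp_log (x := 1 - 2 / P)]
            · exact Real.exp_le_exp.2 (h8.trans h7)
            · have : 2 / P < 1 := by rw [div_lt_one (by linarith)]; linarith
              linarith
          calc P * Real.exp (-(2 / P + 12 / P ^ 2)) ≤ P * (1 - 2 / P) := by gcongr
            _ = P - 2 := by field_simp
        rw [Nat.cast_mul, ← hP]
        have h11 : (0 : ℝ) ≤ (primorial y : ℝ) *
            Real.exp (-(∑ p ∈ (Icc 1 y).filter Nat.Prime, (2 / (p : ℝ) + 12 / (p : ℝ) ^ 2))) := by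
          positivity
        calc P * (primorial y : ℝ) * (Real.exp (-(2 / P + 12 / P ^ 2)) *
              Real.exp (-(∑ p ∈ (Icc 1 y).filter Nat.Prime, (2 / (p : ℝ) + 12 / (p : ℝ) ^ 2))))
            = (P * Real.exp (-(2 / P + 12 / P ^ 2))) * ((primorial y : ℝ) *
            Real.exp (-(∑ p ∈ (Icc 1 y).filter Nat.Prime, (2 / (p : ℝ) + 12 / (p : ℝ) ^ 2)))) := by
              ring
          _ ≤ (P - 2) * ((G (primorial y)).card : ℝ) := by
              apply mul_le_mul h6 ih h11 (by linarith)
    · have h1 : primorial (y + 1) = primorial y := by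
        rw [primorial, range_add_one, filter_insert, if_neg hp, primorial]
      have h2 : (Icc 1 (y + 1)).filter Nat.Prime = (Icc 1 y).filter Nat.Prime := by
        rw [Icc_succ_eq, filter_insert, if_neg hp]
      rw [h1, h2]
      exact ih

end Pool.Agent.Helper15.SG
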