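import Mathlib
import Pool.Agent.Helper15.SG.Sieve

/-! Counting the candidates in an interval. -/

namespace Pool.Agent.Helper15.SG

open Finset

/-- the elements of the interval `(X, X + H]` in the good classes mod `Q` -/
def GI (X H Q : ℕ) : Finset ℕ :=
  (Ioc X (X + H)).filter (fun c => Nat.Coprime (c * (2 * c + 1)) Q)

theorem coprime_mod_iff (c Q : ℕ) :
    Nat.Coprime (c * (2 * c + 1)) Q ↔ Nat.Coprime ((c % Q) * (2 * (c % Q) + 1)) Q := by
  have h : (c * (2 * c + 1)) ≡ ((c % Q) * (2 * (c % Q) + 1)) [MOD Q] := by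
    have h1 : c ≡ c % Q [MOD Q] := (Nat.mod_modEq c Q).symm
    exact h1.mul ((h1.mul_left 2).add_right 1)
  unfold Nat.Coprime
  rw [h.gcd_eq]

theorem card_GI (X H Q : ℕ) (hQ : 0 < Q) : (H / Q) * (G Q).card ≤ (GI X H Q).card := by
  classical
  have h : ((range (H / Q)) ×ˢ (G Q)).card ≤ (GI X H Q).card := by
    set f : ℕ × ℕ → ℕ := fun x => X + 1 + x.1 * Q + ((x.2 + (Q - (X + 1) % Q)) % Q) with hf
    have hfm : ∀ x : ℕ × ℕ, x.2 < Q → f x % Q = x.2 := by
      intro x hx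
      have h1 : f x ≡ x.2 [MOD Q] := by
        have h2 : f x ≡ (X + 1) + x.1 * Q + (x.2 + (Q - (X + 1) % Q)) [MOD Q] :=
          (Nat.ModEq.refl _).add (Nat.mod_modEq _ _)
        have h3 : (X + 1) + x.1 * Q + (x.2 + (Q - (X + 1) % Q)) ≡
            ((X + 1) % Q) + x.1 * Q + (x.2 + (Q - (X + 1) % Q)) [MOD Q] :=
          (((Nat.mod_modEq _ _).symm).add_right _).add_right _
        have h4 : ((X + 1) % Q) + x.1 * Q + (x.2 + (Q - (X + 1) % Q)) = x.2 + Q * (x.1 + 1) := by
          have := Nat.mod_lt (X + 1) hQ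
          have h5 : ((X + 1) % Q) + (Q - (X + 1) % Q) = Q := by omega
          calc ((X + 1) % Q) + x.1 * Q + (x.2 + (Q - (X + 1) % Q))
              = x.2 + x.1 * Q + (((X + 1) % Q) + (Q - (X + 1) % Q)) := by ring
            _ = x.2 + Q * (x.1 + 1) := by rw [h5]; ring
        rw [h4] at h3
        have h6 : x.2 + Q * (x.1 + 1) ≡ x.2 [MOD Q] := by
          unfold Nat.ModEq
          simp
        exact (h2.trans h3).trans h6
      have h2 := h1
      unfold Nat.ModEq at h2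
      rw [h2, Nat.mod_eq_of_lt hx]
    apply card_le_card_of_injOn f
    · intro x hx
      rw [mem_coe, mem_product, mem_range, G, mem_filter, mem_range] at hx
      obtain ⟨hx1, hx2, hx3⟩ := hx
      rw [mem_coe, GI, mem_filter, mem_Ioc]
      have h1 := Nat.mod_lt (x.2 + (Q - (X + 1) % Q)) hQ
      have h2 : (x.1 + 1) * Q ≤ H :=
        (Nat.mul_le_mul_right Q hx1).trans (Nat.div_mul_le_self H Q)
      have h3 : x.1 * Q + Q ≤ H := by rw [← Nat.succ_mul]; exact h2
      refine ⟨⟨?_, ?_⟩, ?_⟩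
      · simp only [hf]; omega
      · simp only [hf]; omega
      · rw [coprime_mod_iff, hfm x hx2]
        exact hx3
    · intro x hx y hy hxy
      rw [mem_coe, mem_product, mem_range, G, mem_filter, mem_range] at hx hy
      have h1 : x.2 = y.2 := by
        rw [← hfm x hx.2.1, ← hfm y hy.2.1, hxy]
      have h2 : x.1 = y.1 := by
        simp only [hf, h1] at hxy
        have h3 : x.1 * Q = y.1 * Q := by omega
        exact Nat.eq_of_mul_eq_mul_right hQ h3
      exact Prod.ext h2 h1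
  rwa [card_product, card_range] at h

theorem card_GI_dvd (X H Q p : ℕ) (hQ : 0 < Q) (hp : p.Prime) (hpQ : ¬ p ∣ Q) :
    (((GI X H Q).filter (fun c => p ∣ c * (2 * c + 1))).card : ℝ) ≤
      2 * (G Q).card * (1 + H / (Q * p)) := by
  classical
  have hcop : Nat.Coprime Q p := ((Nat.Prime.coprime_iff_not_dvd hp).2 hpQ).symm
  set A : ℕ → Finset ℕ := fun a => (GI X H Q).filter (fun c => c % Q = a ∧ p ∣ c) with hA
  set B : ℕ → Finset ℕ := fun a => (GI X H Q).filter (fun c => c % Q = a ∧ p ∣ 2 * c + 1) with hB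
  have hsub : (GI X H Q).filter (fun c => p ∣ c * (2 * c + 1)) ⊆ (G Q).biUnion (fun a => A a ∪ B a) := by
    intro c hc
    rw [mem_filter] at hc
    rw [mem_biUnion]
    refine ⟨c % Q, ?_, ?_⟩
    · have h1 := hc.1
      rw [GI, mem_filter] at h1
      rw [G, mem_filter, mem_range]
      exact ⟨Nat.mod_lt _ hQ, (coprime_mod_iff c Q).1 h1.2⟩
    · rw [mem_union, hA, hB, mem_filter, mem_filter]
      rcases (hp.dvd_mul).1 hc.2 with h | h
      · exact Or.inl ⟨hc.1, rfl, h⟩
      · exact Or.inr ⟨hc.1, rfl, h⟩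
  have hcA : ∀ a, ((A a).card : ℝ) ≤ 1 + H / (Q * p) := by
    intro a
    have := card_le_of_modEq (A a) X H (Q * p) (Nat.mul_pos hQ hp.pos)
      (by
        intro u hu
        rw [hA, mem_filter, GI, mem_filter, mem_Ioc] at hu
        exact hu.1.1)
      (by
        intro u hu v hv
        rw [hA, mem_filter] at hu hv
        rw [← Nat.modEq_and_modEq_iff_modEq_mul hcop]
        refine ⟨?_, ?_⟩
        · unfold Nat.ModEq
          rw [hu.2.1, hv.2.1]
        · exact ((Nat.modEq_zero_iff_dvd).2 hu.2.2).trans ((Nat.modEq_zero_iff_dvd).2 hv.2.2).symm)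
    exact_mod_cast this
  have hcB : ∀ a, ((B a).card : ℝ) ≤ 1 + H / (Q * p) := by
    intro a
    have := card_le_of_modEq (B a) X H (Q * p) (Nat.mul_pos hQ hp.pos)
      (by
        intro u hu
        rw [hB, mem_filter, GI, mem_filter, mem_Ioc] at hu
        exact hu.1.1)
      (by
        intro u hu v hv
        rw [hB, mem_filter] at hu hv
        rw [← Nat.modEq_and_modEq_iff_modEq_mul hcop]
        refine ⟨?_, ?_⟩
        · unfold Nat.ModEq
          rw [hu.2.1, hv.2.1]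
        · have hp2 : p ≠ 2 := by
            intro h2
            have h3 := hu.2.2
            rw [h2] at h3
            omega
          have h0 : 2 * u + 1 ≡ 2 * v + 1 [MOD p] :=
            ((Nat.modEq_zero_iff_dvd).2 hu.2.2).trans ((Nat.modEq_zero_iff_dvd).2 hv.2.2).symm
          have h1 : 2 * u ≡ 2 * v [MOD p] := Nat.ModEq.add_right_cancel' 1 h0
          apply Nat.ModEq.cancel_left_of_coprime _ h1
          exact (Nat.coprime_primes hp Nat.prime_two).2 hp2)
    exact_mod_cast this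
  calc (((GI X H Q).filter (fun c => p ∣ c * (2 * c + 1))).card : ℝ)
      ≤ (((G Q).biUnion (fun a => A a ∪ B a)).card : ℝ) := by exact_mod_cast card_le_card hsub
    _ ≤ ((∑ a ∈ G Q, (A a ∪ B a).card : ℕ) : ℝ) := by exact_mod_cast card_biUnion_le
    _ = ∑ a ∈ G Q, ((A a ∪ B a).card : ℝ) := by push_cast; rfl
    _ ≤ ∑ a ∈ G Q, 2 * (1 + (H : ℝ) / (Q * p)) := by
        apply sum_le_sum
        intro a _
        have h1 : ((A a ∪ B a).card : ℝ) ≤ (A a).card + (B a).card := by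
          exact_mod_cast card_union_le _ _
        have := hcA a
        have := hcB a
        linarith
    _ = 2 * (G Q).card * (1 + H / (Q * p)) := by
        rw [sum_const, nsmul_eq_mul]
        ring

/-- the candidates -/
def Cand (X H Q : ℕ) (P : Finset ℕ) : Finset ℕ :=
  (GI X H Q).filter (fun c => ∀ p ∈ P, ¬ p ∣ c * (2 * c + 1))

theorem card_Cand (X H Q : ℕ) (P : Finset ℕ) (hQ : 0 < Q) (hP : ∀ p ∈ P, p.Prime ∧ ¬ p ∣ Q) :
    ((G Q).card : ℝ) * ((H : ℝ) / Q - 1 - 2 * P.card - 2 * (H / Q) * ∑ p ∈ P, 1 / (p : ℝ)) ≤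
      ((Cand X H Q P).card : ℝ) := by
  classical
  have hsub : GI X H Q ⊆ Cand X H Q P ∪
      P.biUnion (fun p => (GI X H Q).filter (fun c => p ∣ c * (2 * c + 1))) := by
    intro c hc
    by_cases h : ∀ p ∈ P, ¬ p ∣ c * (2 * c + 1)
    · exact mem_union_left _ (mem_filter.2 ⟨hc, h⟩)
    · push Not at h
      obtain ⟨p, hpP, hp⟩ := h
      exact mem_union_right _ (mem_biUnion.2 ⟨p, hpP, mem_filter.2 ⟨hc, hp⟩⟩)
  have h1 : ((GI X H Q).card : ℝ) ≤ (Cand X H Q P).card +
      ∑ p ∈ P, (((GI X H Q).filter (fun c => p ∣ c * (2 * c + 1))).card : ℝ) := by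
    have h2 : (GI X H Q).card ≤ (Cand X H Q P).card +
        ∑ p ∈ P, ((GI X H Q).filter (fun c => p ∣ c * (2 * c + 1))).card :=
      (card_le_card hsub).trans ((card_union_le _ _).trans
        (Nat.add_le_add_left card_biUnion_le _))
    exact_mod_cast h2
  have h3 : ∑ p ∈ P, (((GI X H Q).filter (fun c => p ∣ c * (2 * c + 1))).card : ℝ) ≤
      ∑ p ∈ P, 2 * ((G Q).card : ℝ) * (1 + H / (Q * p)) :=
    sum_le_sum (fun p hp => card_GI_dvd X H Q p hQ (hP p hp).1 (hP p hp).2)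
  have h4 : ∑ p ∈ P, 2 * ((G Q).card : ℝ) * (1 + H / (Q * p)) =
      (G Q).card * (2 * P.card + 2 * (H / Q) * ∑ p ∈ P, 1 / (p : ℝ)) := by
    rw [← mul_sum, sum_add_distrib, sum_const, nsmul_eq_mul]
    have : ∑ p ∈ P, (H : ℝ) / (Q * p) = (H / Q) * ∑ p ∈ P, 1 / (p : ℝ) := by
      rw [mul_sum]
      apply sum_congr rfl
      intro p _
      rw [div_mul_div_comm, mul_one]
    rw [this]
    ring
  have h5 : ((G Q).card : ℝ) * ((H : ℝ) / Q - 1) ≤ ((GI X H Q).card : ℝ) := by
    have h6 := card_GI X H Q hQ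
    have h7 : (((H / Q : ℕ) : ℝ)) * (G Q).card ≤ ((GI X H Q).card : ℝ) := by exact_mod_cast h6
    have h8 : (H : ℝ) / Q - 1 ≤ ((H / Q : ℕ) : ℝ) := by
      have hQ' : (0 : ℝ) < Q := by exact_mod_cast hQ
      rw [sub_le_iff_le_add, div_le_iff₀ hQ']
      have h9 : H < (H / Q + 1) * Q := by
        rw [Nat.add_mul, one_mul]
        exact Nat.lt_div_mul_add hQ
      have h10 : (H : ℝ) < ((H / Q : ℕ) + 1) * Q := by exact_mod_cast h9
      exact h10.le
    calc ((G Q).card : ℝ) * ((H : ℝ) / Q - 1) ≤ ((G Q).card : ℝ) * ((H / Q : ℕ) : ℝ) := by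
          gcongr
      _ ≤ _ := by rw [mul_comm]; exact h7
  have h6 : ((G Q).card : ℝ) * ((H : ℝ) / Q - 1 - 2 * P.card - 2 * (H / Q) * ∑ p ∈ P, 1 / (p : ℝ)) =
      ((G Q).card : ℝ) * ((H : ℝ) / Q - 1) -
      (G Q).card * (2 * P.card + 2 * (H / Q) * ∑ p ∈ P, 1 / (p : ℝ)) := by ring
  rw [h6]
  linarith

end Pool.Agent.Helper15.SG
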