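import Mathlib

/-! Numbers that are not coprime to their totient. -/

namespace Pool.Agent.Helper15.SG

theorem exists_of_not_cyclic {n : ℕ} (hn : 0 < n) (h : ¬ Nat.Coprime n (Nat.totient n)) :
    ∃ p : ℕ, p.Prime ∧ p ∣ n ∧ (p ^ 2 ∣ n ∨ ∃ q : ℕ, q.Prime ∧ p ∣ q - 1 ∧ p * q ∣ n) := by
  obtain ⟨p, hp, hpn, hpt⟩ := Nat.Prime.not_coprime_iff_dvd.mp h
  refine ⟨p, hp, hpn, ?_⟩
  rw [Nat.totient_eq_prod_factorization hn.ne'] at hpt
  rw [Finsupp.prod] at hpt
  rw [hp.prime.dvd_finsetProd_iff] at hpt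
  obtain ⟨q, hq, hdvd⟩ := hpt
  rw [Nat.support_factorization, Nat.mem_primeFactors] at hq
  obtain ⟨hqp, hqn, _⟩ := hq
  rcases (hp.dvd_mul).mp hdvd with h1 | h1
  · left
    have hpq : p ∣ q := hp.dvd_of_dvd_pow h1
    have hpq' : p = q := (Nat.prime_dvd_prime_iff_eq hp hqp).mp hpq
    subst hpq'
    have hk : n.factorization p - 1 ≠ 0 := by
      intro h0
      rw [h0, pow_zero] at h1
      exact hp.one_lt.ne' (Nat.dvd_one.mp h1)
    have hk2 : 2 ≤ n.factorization p := by omega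
    exact (hp.pow_dvd_iff_le_factorization hn.ne').mpr hk2
  · right
    refine ⟨q, hqp, h1, ?_⟩
    have hne : p ≠ q := by
      rintro rfl
      have := Nat.le_of_dvd (by have := hp.two_le; omega) h1
      have := hp.two_le
      omega
    exact Nat.Coprime.mul_dvd_of_dvd_of_dvd ((Nat.coprime_primes hp hqp).mpr hne) hpn hqn

end Pool.Agent.Helper15.SG
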