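import Mathlib
import Pool.Agent.Helper15.SG.Cand
import Pool.Agent.Helper15.SG.Bad
import Pool.Agent.Helper15.SG.NC
import Pool.Graph.R_seed8.Helper923.HMertens
import Pool.Graph.R_seed8.Helper256.KM.Mertens

/-! Combining the two counts. -/

namespace Pool.Agent.Helper15.SG

open Finset

/-- `n` is a cyclic number -/
def IsCyc (n : ℕ) : Prop := 0 < n ∧ Nat.Coprime n (Nat.totient n)

/-- the primes in `(y, z]` -/
def PP (y z : ℕ) : Finset ℕ := (Ioc y z).filter Nat.Prime

theorem large_of_cand (X H y z c p : ℕ) (hc : c ∈ Cand X H (primorial y) (PP y z))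
    (hp : p.Prime) (hpc : p ∣ c * (2 * c + 1)) : z < p := by
  by_contra h
  rw [Cand, mem_filter, GI, mem_filter] at hc
  by_cases hpy : p ≤ y
  · have h1 : p ∣ primorial y := (hp.dvd_primorial_iff).2 hpy
    exact Nat.Prime.not_coprime_iff_dvd.2 ⟨p, hp, hpc, h1⟩ hc.1.2
  · apply hc.2 p _ hpc
    rw [PP, mem_filter, mem_Ioc]
    exact ⟨⟨by omega, by omega⟩, hp⟩

theorem bad_of_cand (X H y z c : ℕ) (hc : c ∈ Cand X H (primorial y) (PP y z))
    (h : ¬ (IsCyc c ∧ IsCyc (2 * c + 1))) : c ∈ Bad X H z ∨ 2 * c + 1 ∈ Bad (2 * X) (2 * H + 1) z := by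
  have hc' := hc
  rw [Cand, mem_filter, GI, mem_filter, mem_Ioc] at hc'
  have hc0 : 0 < c := by omega
  by_cases h1 : IsCyc c
  · right
    have h2 : ¬ Nat.Coprime (2 * c + 1) (Nat.totient (2 * c + 1)) :=
      fun h3 => h ⟨h1, by omega, h3⟩
    obtain ⟨p, hp, hpc, hor⟩ := exists_of_not_cyclic (by omega) h2
    refine ⟨by omega, by omega, p, hp, ?_, hor⟩
    exact large_of_cand X H y z c p hc hp (hpc.mul_left c)
  · left
    have h2 : ¬ Nat.Coprime c (Nat.totient c) := fun h3 => h1 ⟨hc0, h3⟩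
    obtain ⟨p, hp, hpc, hor⟩ := exists_of_not_cyclic hc0 h2
    refine ⟨by omega, by omega, p, hp, ?_, hor⟩
    exact large_of_cand X H y z c p hc hp (hpc.mul_right _)

open Classical in
/-- the Sophie Germain cyclics in `(X, X + H]` -/
noncomputable def SGI (X H : ℕ) : Finset ℕ :=
  (Ioc X (X + H)).filter (fun c => IsCyc c ∧ IsCyc (2 * c + 1))

theorem card_Cand_le (X H y z : ℕ) (w v : ℝ) (hw : 2 ≤ w) (hwH : w ^ 30 = H) (hv : 2 ≤ v)
    (hvH : v ^ 30 = ((2 * H + 1 : ℕ) : ℝ)) (hz : 2 ≤ z)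
    (hzw : (z : ℝ) ≤ w ^ 18) (hzv : (z : ℝ) ≤ v ^ 18)
    (hHX : H + 1 ≤ X) (hX : X ≤ H ^ 2) (hX4 : H ^ 2 ≤ 4 * X) (hX8 : (2 * H + 1) ^ 2 ≤ 8 * X) :
    ((Cand X H (primorial y) (PP y z)).card : ℝ) ≤ (SGI X H).card +
      (8 * (1 + Real.log (2 * H)) * H * ((2 + Real.log z) / z) +
      60 * (1 + Real.log (2 * H)) * w ^ 29) +
      (8 * (1 + Real.log (2 * ((2 * H + 1 : ℕ) : ℝ))) * ((2 * H + 1 : ℕ) : ℝ) *
      ((2 + Real.log z) / z) + 60 * (1 + Real.log (2 * ((2 * H + 1 : ℕ) : ℝ))) * v ^ 29) := by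
  classical
  set K := Cand X H (primorial y) (PP y z) with hK
  set A := K.filter (fun c => c ∈ Bad X H z) with hA
  set B := K.filter (fun c => 2 * c + 1 ∈ Bad (2 * X) (2 * H + 1) z) with hB
  have hsub : K ⊆ (SGI X H ∪ A) ∪ B := by
    intro c hc
    by_cases h : IsCyc c ∧ IsCyc (2 * c + 1)
    · apply mem_union_left
      apply mem_union_left
      rw [SGI, mem_filter]
      have hc' := hc
      rw [hK, Cand, mem_filter, GI, mem_filter] at hc'
      exact ⟨hc'.1.1, h⟩
    · rcases bad_of_cand X H y z c hc h with h1 | h1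
      · exact mem_union_left _ (mem_union_right _ (mem_filter.2 ⟨hc, h1⟩))
      · exact mem_union_right _ (mem_filter.2 ⟨hc, h1⟩)
  have h1 : (K.card : ℝ) ≤ (SGI X H).card + A.card + B.card := by
    have := (card_le_card hsub).trans ((card_union_le _ _).trans
      (Nat.add_le_add_right (card_union_le _ _) _))
    exact_mod_cast this
  have h2 := card_bad X H z w hw hwH hz hzw (by omega) hX hX4 A
    (fun n hn => (mem_filter.1 hn).2)
  have h3 := card_bad (2 * X) (2 * H + 1) z v hv hvH hz hzv (by omega)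
    (by nlinarith) (by omega) (B.image (fun c => 2 * c + 1))
    (by
      intro n hn
      rw [mem_image] at hn
      obtain ⟨c, hc, rfl⟩ := hn
      exact (mem_filter.1 hc).2)
  have h4 : (B.image (fun c => 2 * c + 1)).card = B.card := by
    apply card_image_of_injective
    intro a b hab
    simp only at hab
    omega
  rw [h4] at h3
  linarith

end Pool.Agent.Helper15.SG
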