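import Mathlib
import Pool.Agent.Helper15.SG.Comb

/-! Densities and limits. -/

namespace Pool.Agent.Helper15.SG

open Finset Filter

theorem dens : ∃ c : ℝ, 0 < c ∧ ∀ y : ℕ, 3 ≤ y →
    c * (primorial y : ℝ) ≤ (Real.log y) ^ 2 * ((G (primorial y)).card : ℝ) := by
  obtain ⟨C, hC⟩ := Pool.Agent.Helper256.KM.mertens_inv
  refine ⟨Real.exp (-(2 * C + 24)), Real.exp_pos _, fun y hy => ?_⟩
  have hlog1 : 1 < Real.log y := by
    have h1 : Real.log 3 ≤ Real.log y := Real.log_le_log (by norm_num) (by exact_mod_cast hy)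
    have h2 : 1 < Real.log 3 := by
      rw [Real.lt_log_iff_exp_lt (by norm_num)]
      have := Real.exp_one_lt_d9
      linarith
    linarith
  have h0 := hC y hy
  rw [abs_le] at h0
  have h1 := card_G_primorial y
  have h2 : ∑ p ∈ (Icc 1 y).filter Nat.Prime, (2 / (p : ℝ) + 12 / (p : ℝ) ^ 2) ≤
      2 * Real.log (Real.log y) + (2 * C + 24) := by
    rw [sum_add_distrib]
    have h3 : ∑ p ∈ (Icc 1 y).filter Nat.Prime, 2 / (p : ℝ) =
        2 * ∑ p ∈ (Icc 1 y).filter Nat.Prime, 1 / (p : ℝ) := by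
      rw [mul_sum]
      apply sum_congr rfl
      intro p _
      ring
    have h4 : ∑ p ∈ (Icc 1 y).filter Nat.Prime, 12 / (p : ℝ) ^ 2 ≤ 24 := by
      have h5 : ∑ p ∈ (Icc 1 y).filter Nat.Prime, 12 / (p : ℝ) ^ 2 ≤
          ∑ p ∈ Ioc 1 y, 12 / (p : ℝ) ^ 2 := by
        apply sum_le_sum_of_subset_of_nonneg
        · intro p hp
          rw [mem_filter, mem_Icc] at hp
          rw [mem_Ioc]
          exact ⟨hp.2.one_lt, hp.1.2⟩
        · intros; positivity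
      have h6 := sum_inv_sq 1 y (by norm_num) (by omega)
      have h7 : ∑ p ∈ Ioc 1 y, 12 / (p : ℝ) ^ 2 = 12 * ∑ p ∈ Ioc 1 y, (1 : ℝ) / (p : ℝ) ^ 2 := by
        rw [mul_sum]
        apply sum_congr rfl
        intro p _
        ring
      rw [h7] at h5
      have h8 : (1 : ℝ) / ((1 : ℕ) : ℝ) = 1 := by norm_num
      rw [h8] at h6
      linarith
    rw [h3]
    linarith [h0.2]
  have h3 : Real.exp (-(2 * C + 24)) ≤ (Real.log y) ^ 2 *
      Real.exp (-(∑ p ∈ (Icc 1 y).filter Nat.Prime, (2 / (p : ℝ) + 12 / (p : ℝ) ^ 2))) := by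
    have h4 : (Real.log y) ^ 2 = Real.exp (2 * Real.log (Real.log y)) := by
      rw [two_mul, Real.exp_add, Real.exp_log (by linarith)]
      ring
    rw [h4, ← Real.exp_add, Real.exp_le_exp]
    linarith
  calc Real.exp (-(2 * C + 24)) * (primorial y : ℝ) ≤ ((Real.log y) ^ 2 *
      Real.exp (-(∑ p ∈ (Icc 1 y).filter Nat.Prime, (2 / (p : ℝ) + 12 / (p : ℝ) ^ 2)))) *
        (primorial y : ℝ) := by gcongr
    _ = (Real.log y) ^ 2 * ((primorial y : ℝ) *
      Real.exp (-(∑ p ∈ (Icc 1 y).filter Nat.Prime, (2 / (p : ℝ) + 12 / (p : ℝ) ^ 2)))) := by ring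
    _ ≤ (Real.log y) ^ 2 * ((G (primorial y)).card : ℝ) := by gcongr

theorem tendsto_log2 : Tendsto (fun y : ℕ => Nat.log 2 y) atTop atTop := by
  rw [tendsto_atTop]
  intro b
  filter_upwards [eventually_ge_atTop (2 ^ b)] with y hy
  exact Nat.le_log_of_pow_le (by norm_num) hy

theorem tendsto_log4 : Tendsto (fun y : ℕ => Nat.log 4 y / 8) atTop atTop := by
  rw [tendsto_atTop]
  intro b
  filter_upwards [eventually_ge_atTop (4 ^ (8 * b))] with y hy
  have : 8 * b ≤ Nat.log 4 y := Nat.le_log_of_pow_le (by norm_num) hy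
  omega

/-- the conditions on `y` -/
theorem ev (c C : ℝ) (hc : 0 < c) : ∀ᶠ y : ℕ in atTop, 3 ≤ y ∧ 1 ≤ Nat.log 2 y ∧
    46080 / (Nat.log 2 y : ℝ) ≤ c / 8 ∧ 43200 * (y : ℝ) ^ 3 / (1.4 : ℝ) ^ y ≤ c / 8 ∧
    (4 * Real.log (Nat.log 2 y) + C) / (Nat.log 2 y / 2) ≤ 1 / 8 := by
  have h1 : Tendsto (fun n : ℕ => (46080 : ℝ) / (n : ℝ)) atTop (nhds 0) :=
    tendsto_const_div_atTop_nhds_zero_nat _
  have h2 : ∀ᶠ y : ℕ in atTop, 46080 / (Nat.log 2 y : ℝ) < c / 8 :=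
    (h1.comp tendsto_log2).eventually_lt_const (by positivity)
  have h3 : Tendsto (fun y : ℕ => (y : ℝ) ^ 3 / (1.4 : ℝ) ^ y) atTop (nhds 0) :=
    tendsto_pow_const_div_const_pow_of_one_lt 3 (by norm_num)
  have h4 : ∀ᶠ y : ℕ in atTop, 43200 * ((y : ℝ) ^ 3 / (1.4 : ℝ) ^ y) < c / 8 := by
    have h5 : Tendsto (fun y : ℕ => 43200 * ((y : ℝ) ^ 3 / (1.4 : ℝ) ^ y)) atTop (nhds (43200 * 0)) :=
      h3.const_mul _
    rw [mul_zero] at h5
    exact h5.eventually_lt_const (by positivity)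
  have h6 : Tendsto (fun n : ℕ => (4 * Real.log n + C) / ((n : ℝ) / 2)) atTop (nhds 0) := by
    have h7 : Tendsto (fun n : ℕ => Real.log n / (n : ℝ)) atTop (nhds 0) := by
      have := Real.isLittleO_log_id_atTop.tendsto_div_nhds_zero
      exact this.comp tendsto_natCast_atTop_atTop
    have h8 : Tendsto (fun n : ℕ => 2 * C / (n : ℝ)) atTop (nhds 0) :=
      tendsto_const_div_atTop_nhds_zero_nat _
    have h9 := (h7.const_mul 8).add h8
    rw [mul_zero, add_zero] at h9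
    refine h9.congr fun n => ?_
    by_cases hn : (n : ℝ) = 0
    · simp [hn]
    · field_simp
      ring
  have h7 : ∀ᶠ y : ℕ in atTop,
      (4 * Real.log (Nat.log 2 y) + C) / ((Nat.log 2 y : ℝ) / 2) < 1 / 8 :=
    (h6.comp tendsto_log2).eventually_lt_const (by norm_num)
  filter_upwards [eventually_ge_atTop 3, tendsto_log2.eventually_ge_atTop 1, h2, h4, h7]
    with y a1 a2 a3 a4 a5
  refine ⟨a1, a2, a3.le, ?_, a5.le⟩
  rw [mul_div_assoc]
  exact a4.le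

/-- elementary facts about `y`, `l = log_2 y` and `z = y l^4` -/
theorem facts (y : ℕ) (hy : 3 ≤ y) (hl : 1 ≤ Nat.log 2 y) :
    y ≤ y * (Nat.log 2 y) ^ 4 ∧ y * (Nat.log 2 y) ^ 4 ≤ y ^ 5 ∧
    Real.log y ≤ 2 * (Nat.log 2 y : ℝ) ∧ (Nat.log 2 y : ℝ) / 2 ≤ Real.log y ∧
    2 + Real.log (y * (Nat.log 2 y) ^ 4 : ℕ) ≤ 8 * (Nat.log 2 y : ℝ) ∧
    Real.log ((y * (Nat.log 2 y) ^ 4 : ℕ) : ℝ) = Real.log y + 4 * Real.log (Nat.log 2 y) := by
  set l := Nat.log 2 y with hlD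
  have hy0 : (0 : ℝ) < y := by exact_mod_cast (by omega : 0 < y)
  have hl0 : (0 : ℝ) < l := by exact_mod_cast (by omega : 0 < l)
  have hl1 : (1 : ℝ) ≤ l := by exact_mod_cast hl
  have hly : l ≤ y := Nat.log_le_self 2 y
  have h1 : 2 ^ l ≤ y := Nat.pow_log_le_self 2 (by omega)
  have h2 : y < 2 ^ (l + 1) := Nat.lt_pow_succ_log_self (by norm_num) y
  have hlog2a := Real.log_two_gt_d9
  have hlog2b := Real.log_two_lt_d9
  have h3 : Real.log y ≤ (l + 1) * Real.log 2 := by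
    have h4 : (y : ℝ) ≤ 2 ^ (l + 1) := by exact_mod_cast h2.le
    calc Real.log y ≤ Real.log (2 ^ (l + 1)) := Real.log_le_log hy0 h4
      _ = (l + 1) * Real.log 2 := by rw [Real.log_pow]; push_cast; ring
  have h4 : l * Real.log 2 ≤ Real.log y := by
    have h5 : (2 : ℝ) ^ l ≤ y := by exact_mod_cast h1
    calc l * Real.log 2 = Real.log (2 ^ l) := by rw [Real.log_pow]
      _ ≤ Real.log y := Real.log_le_log (by positivity) h5
  have h5 : Real.log ((y * l ^ 4 : ℕ) : ℝ) = Real.log y + 4 * Real.log l := by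
    push_cast
    rw [Real.log_mul hy0.ne' (by positivity), Real.log_pow]
    push_cast
    ring
  have h6 : Real.log l ≤ l - 1 := Real.log_le_sub_one_of_pos hl0
  refine ⟨?_, ?_, ?_, ?_, ?_, h5⟩
  · exact Nat.le_mul_of_pos_right _ (by positivity)
  · calc y * l ^ 4 ≤ y * y ^ 4 := by gcongr
      _ = y ^ 5 := by ring
  · nlinarith
  · nlinarith
  · rw [h5]
    nlinarith

end Pool.Agent.Helper15.SG
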