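import Mathlib
import Pool.Agent.Helper15.SG.Dens

/-! The main count. -/

namespace Pool.Agent.Helper15.SG

open Finset Filter

theorem two_pow_bound (y : ℕ) (hy : 3 ≤ y) : (1 : ℝ) + 2 * (y : ℝ) ^ 5 ≤ 4 ^ (7 * y) / 8 := by
  have h1 : (y : ℝ) ≤ 2 ^ y := by exact_mod_cast (Nat.lt_two_pow_self (n := y)).le
  have h2 : (y : ℝ) ^ 5 ≤ (2 ^ y) ^ 5 := by gcongr
  have h3 : (4 : ℝ) ^ (7 * y) = (2 ^ y) ^ 14 := by
    rw [show (4 : ℝ) = 2 ^ 2 by norm_num, ← pow_mul, ← pow_mul]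
    ring_nf
  rw [h3]
  have h4 : (8 : ℝ) ≤ 2 ^ y := by
    calc (8 : ℝ) = 2 ^ 3 := by norm_num
      _ ≤ 2 ^ y := pow_le_pow_right₀ (by norm_num) hy
  set t : ℝ := (2 : ℝ) ^ y
  have h5 : 1 ≤ t := by linarith
  have h6 : 1 ≤ t ^ 5 := one_le_pow₀ h5
  have h7 : (8 : ℝ) ^ 9 ≤ t ^ 9 := by gcongr
  have h8 : t ^ 14 = t ^ 9 * t ^ 5 := by ring
  rw [h8]
  nlinarith

/-- the bound for `w` -/
theorem w_bound (H y z : ℕ) (w : ℝ) (hw0 : 0 ≤ w) (hw : (H : ℝ) ≤ w ^ 30) (hy : 3 ≤ y)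
    (hH : 4 ^ (8 * y) ≤ H) (hz : z ≤ y ^ 5) : (1.4 : ℝ) ^ y ≤ w ∧ 2 ≤ w ∧ (z : ℝ) ≤ w ^ 18 := by
  have h1 : (1.4 : ℝ) ^ y ≤ w := by
    apply le_of_pow_le_pow_left₀ (n := 30) (by norm_num) hw0
    have h2 : ((1.4 : ℝ) ^ y) ^ 30 = ((1.4 : ℝ) ^ 30) ^ y := by rw [← pow_mul, ← pow_mul, mul_comm]
    have h3 : (1.4 : ℝ) ^ 30 ≤ 4 ^ 8 := by norm_num
    have h4 : ((4 ^ (8 * y) : ℕ) : ℝ) ≤ H := by exact_mod_cast hH
    calc ((1.4 : ℝ) ^ y) ^ 30 = ((1.4 : ℝ) ^ 30) ^ y := h2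
      _ ≤ ((4 : ℝ) ^ 8) ^ y := by gcongr
      _ = ((4 ^ (8 * y) : ℕ) : ℝ) := by push_cast; rw [pow_mul]
      _ ≤ w ^ 30 := h4.trans hw
  refine ⟨h1, ?_, ?_⟩
  · calc (2 : ℝ) ≤ 1.4 ^ 3 := by norm_num
      _ ≤ 1.4 ^ y := pow_le_pow_right₀ (by norm_num) hy
      _ ≤ w := h1
  · have h5 : (y : ℝ) ≤ 2 ^ y := by exact_mod_cast (Nat.lt_two_pow_self (n := y)).le
    calc (z : ℝ) ≤ (y : ℝ) ^ 5 := by exact_mod_cast hz
      _ ≤ (2 ^ y) ^ 5 := by gcongr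
      _ = (2 ^ 5) ^ y := by rw [← pow_mul, ← pow_mul, mul_comm]
      _ ≤ (1.4 ^ 18) ^ y := by
          apply pow_le_pow_left₀ (by norm_num)
          norm_num
      _ = (1.4 ^ y) ^ 18 := by rw [← pow_mul, ← pow_mul, mul_comm]
      _ ≤ w ^ 18 := by gcongr

/-- the bound for the logarithm -/
theorem log_bound (H y : ℕ) (hH0 : 1 ≤ H) (hy : 3 ≤ y) (hH : H < 4 ^ (8 * y + 8)) :
    1 + Real.log (2 * H) ≤ 30 * y ∧ 1 + Real.log (2 * ((2 * H + 1 : ℕ) : ℝ)) ≤ 30 * y := by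
  have hH0' : (1 : ℝ) ≤ H := by exact_mod_cast hH0
  have hy' : (3 : ℝ) ≤ y := by exact_mod_cast hy
  have h1 : Real.log H ≤ (8 * y + 8) * Real.log 4 := by
    have h2 : (H : ℝ) ≤ 4 ^ (8 * y + 8) := by exact_mod_cast hH.le
    calc Real.log H ≤ Real.log (4 ^ (8 * y + 8)) := Real.log_le_log (by linarith) h2
      _ = (8 * y + 8) * Real.log 4 := by rw [Real.log_pow]; push_cast; ring
  have hlog4 : Real.log 4 ≤ 1.4 := by
    rw [show (4 : ℝ) = 2 ^ 2 by norm_num, Real.log_pow]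
    have := Real.log_two_lt_d9
    push_cast
    linarith
  have hlog6 : Real.log 6 ≤ 2.1 := by
    have h3 : Real.log 6 ≤ Real.log 8 := Real.log_le_log (by norm_num) (by norm_num)
    have h4 : Real.log 8 = 3 * Real.log 2 := by
      rw [show (8 : ℝ) = 2 ^ 3 by norm_num, Real.log_pow]; norm_num
    have := Real.log_two_lt_d9
    linarith
  have h5 : Real.log (6 * H) ≤ 2.1 + (8 * y + 8) * 1.4 := by
    rw [Real.log_mul (by norm_num) (by linarith)]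
    have : (8 * (y : ℝ) + 8) * Real.log 4 ≤ (8 * y + 8) * 1.4 := by gcongr
    linarith
  have h6 : 1 + Real.log (6 * H) ≤ 30 * y := by linarith
  constructor
  · have : Real.log (2 * H) ≤ Real.log (6 * H) := Real.log_le_log (by positivity) (by linarith)
    linarith
  · have : Real.log (2 * ((2 * H + 1 : ℕ) : ℝ)) ≤ Real.log (6 * H) := by
      apply Real.log_le_log (by positivity)
      push_cast
      linarith
    linarith

/-- the reciprocal sum -/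
theorem recip (C : ℝ) (hC0 : 0 ≤ C) (hC : ∀ a b : ℕ, 2 ≤ a → a ≤ b →
    |∑ p ∈ (Finset.Ioc a b).filter Nat.Prime, (1 : ℝ) / p
      - Real.log (Real.log b / Real.log a)| ≤ C / Real.log a) (y z l : ℕ) (hy : 3 ≤ y) (hl : 1 ≤ l)
    (hyz : y ≤ z) (h1 : (l : ℝ) / 2 ≤ Real.log y)
    (h2 : Real.log z = Real.log y + 4 * Real.log l)
    (h3 : (4 * Real.log l + C) / (l / 2) ≤ 1 / 8) : ∑ p ∈ PP y z, 1 / (p : ℝ) ≤ 1 / 8 := by
  have h4 := hC y z (by omega) hyz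
  rw [abs_le] at h4
  have hl0 : (1 : ℝ) ≤ l := by exact_mod_cast hl
  have hlogl : 0 ≤ Real.log l := Real.log_nonneg hl0
  have hly : 0 < Real.log y := by linarith
  have h5 : Real.log (Real.log z / Real.log y) ≤ (4 * Real.log l) / Real.log y := by
    have h6 : Real.log z / Real.log y = 1 + (4 * Real.log l) / Real.log y := by
      rw [h2]; field_simp
    rw [h6]
    have := Real.log_le_sub_one_of_pos (x := 1 + (4 * Real.log l) / Real.log y) (by positivity)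
    linarith
  have h7 : (4 * Real.log l) / Real.log y + C / Real.log y ≤ (4 * Real.log l + C) / (l / 2) := by
    rw [← add_div]
    apply div_le_div_of_nonneg_left (by positivity) (by positivity) h1
  unfold PP
  linarith [h4.2]

theorem core (c C : ℝ) (hc : 0 < c) (hC0 : 0 ≤ C)
    (hdens : ∀ y : ℕ, 3 ≤ y →
      c * (primorial y : ℝ) ≤ (Real.log y) ^ 2 * ((G (primorial y)).card : ℝ))
    (hC : ∀ a b : ℕ, 2 ≤ a → a ≤ b → |∑ p ∈ (Finset.Ioc a b).filter Nat.Prime, (1 : ℝ) / p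
      - Real.log (Real.log b / Real.log a)| ≤ C / Real.log a)
    (X H y l z : ℕ) (hy3 : 3 ≤ y) (hl1 : 1 ≤ l) (hly : l ≤ y) (hz : z = y * l ^ 4)
    (hHX : H + 1 ≤ X) (hX2 : X ≤ H ^ 2) (hX4 : H ^ 2 ≤ 4 * X) (hX8 : (2 * H + 1) ^ 2 ≤ 8 * X)
    (hH1' : 1 ≤ H)
    (hlow : 4 ^ (8 * y) ≤ H) (hup : H < 4 ^ (8 * y + 8))
    (he1 : 46080 / (l : ℝ) ≤ c / 8) (he2 : 43200 * (y : ℝ) ^ 3 / (1.4 : ℝ) ^ y ≤ c / 8)
    (he3 : (4 * Real.log l + C) / (l / 2) ≤ 1 / 8)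
    (f1 : y ≤ z) (f2 : z ≤ y ^ 5) (f3 : Real.log y ≤ 2 * (l : ℝ)) (f4 : (l : ℝ) / 2 ≤ Real.log y)
    (f5 : 2 + Real.log z ≤ 8 * (l : ℝ)) (f6 : Real.log z = Real.log y + 4 * Real.log l) :
    c / 4 * H ≤ (Real.log y) ^ 2 * ((SGI X H).card : ℝ) := by
  -- real versions
  have hH1 : (1 : ℝ) ≤ H := by exact_mod_cast hH1'
  have hy3' : (3 : ℝ) ≤ y := by exact_mod_cast hy3
  have hl1' : (1 : ℝ) ≤ l := by exact_mod_cast hl1
  have hly' : (l : ℝ) ≤ y := by exact_mod_cast hly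
  have hlogy1 : 1 < Real.log y := by
    have h1 : Real.log 3 ≤ Real.log y := Real.log_le_log (by norm_num) (by exact_mod_cast hy3)
    have h2 : 1 < Real.log 3 := by
      rw [Real.lt_log_iff_exp_lt (by norm_num)]
      have := Real.exp_one_lt_d9
      linarith
    linarith
  -- w and v
  set w : ℝ := (H : ℝ) ^ (1 / 30 : ℝ) with hw
  have hw30 : w ^ 30 = H := by
    rw [hw, ← Real.rpow_natCast, ← Real.rpow_mul (by positivity)]
    norm_num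
  set v : ℝ := ((2 * H + 1 : ℕ) : ℝ) ^ (1 / 30 : ℝ) with hv
  have hv30 : v ^ 30 = ((2 * H + 1 : ℕ) : ℝ) := by
    rw [hv, ← Real.rpow_natCast, ← Real.rpow_mul (by positivity)]
    norm_num
  obtain ⟨w1, w2, w3⟩ := w_bound H y z w (by positivity) hw30.ge hy3 hlow f2
  obtain ⟨v1, v2, v3⟩ := w_bound H y z v (by positivity)
    (by rw [hv30]; push_cast; linarith) hy3 hlow f2
  have hz2 : 2 ≤ z := by omega
  obtain ⟨L1, L2⟩ := log_bound H y hH1' hy3 hup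
  have hcc := card_Cand_le X H y z w v w2 hw30 v2 hv30 hz2 w3 v3
    hHX hX2 hX4 hX8
  -- the bad part
  set q : ℝ := (2 + Real.log z) / z with hq
  have hz0 : (0 : ℝ) < z := by exact_mod_cast (by omega : 0 < z)
  have hq0 : 0 ≤ q := by
    have : 0 ≤ Real.log z := Real.log_natCast_nonneg z
    positivity
  have hyq : y * q ≤ 8 / (l : ℝ) ^ 3 := by
    rw [hq, mul_div_assoc', div_le_div_iff₀ hz0 (by positivity)]
    have hzr : (z : ℝ) = y * (l : ℝ) ^ 4 := by rw [hz]; push_cast; ring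
    calc y * (2 + Real.log z) * (l : ℝ) ^ 3 ≤ y * (8 * (l : ℝ)) * (l : ℝ) ^ 3 := by gcongr
      _ = 8 * (y * (l : ℝ) ^ 4) := by ring
      _ = 8 * (z : ℝ) := by rw [← hzr]
  have hv29 : v ^ 29 ≤ 3 * H / (1.4 : ℝ) ^ y := by
    rw [le_div_iff₀ (by positivity)]
    calc v ^ 29 * (1.4 : ℝ) ^ y ≤ v ^ 29 * v := by gcongr
      _ = v ^ 30 := by ring
      _ = ((2 * H + 1 : ℕ) : ℝ) := hv30
      _ ≤ 3 * H := by push_cast; linarith
  have hw29 : w ^ 29 ≤ 3 * H / (1.4 : ℝ) ^ y := by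
    rw [le_div_iff₀ (by positivity)]
    calc w ^ 29 * (1.4 : ℝ) ^ y ≤ w ^ 29 * w := by gcongr
      _ = w ^ 30 := by ring
      _ = H := hw30
      _ ≤ 3 * H := by linarith
  have hL1 : 0 ≤ 1 + Real.log (2 * H) := by
    have : 0 ≤ Real.log (2 * H) := Real.log_nonneg (by linarith)
    linarith
  have hL2 : 0 ≤ 1 + Real.log (2 * ((2 * H + 1 : ℕ) : ℝ)) := by
    have : 0 ≤ Real.log (2 * ((2 * H + 1 : ℕ) : ℝ)) :=
      Real.log_nonneg (by push_cast; linarith)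
    linarith
  have hb1 : 8 * (1 + Real.log (2 * H)) * H * q ≤ 1920 * H / (l : ℝ) ^ 3 := by
    calc 8 * (1 + Real.log (2 * H)) * H * q ≤ 8 * (30 * y) * H * q := by gcongr
      _ = 240 * H * (y * q) := by ring
      _ ≤ 240 * H * (8 / (l : ℝ) ^ 3) := by gcongr
      _ = 1920 * H / (l : ℝ) ^ 3 := by ring
  have hb2 : 8 * (1 + Real.log (2 * ((2 * H + 1 : ℕ) : ℝ))) * ((2 * H + 1 : ℕ) : ℝ) * q ≤
      5760 * H / (l : ℝ) ^ 3 := by
    calc 8 * (1 + Real.log (2 * ((2 * H + 1 : ℕ) : ℝ))) * ((2 * H + 1 : ℕ) : ℝ) * q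
        ≤ 8 * (30 * y) * (3 * H) * q := by
          gcongr
          push_cast; linarith
      _ = 720 * H * (y * q) := by ring
      _ ≤ 720 * H * (8 / (l : ℝ) ^ 3) := by gcongr
      _ = 5760 * H / (l : ℝ) ^ 3 := by ring
  have hb3 : 60 * (1 + Real.log (2 * H)) * w ^ 29 ≤ 5400 * y * H / (1.4 : ℝ) ^ y := by
    calc 60 * (1 + Real.log (2 * H)) * w ^ 29 ≤ 60 * (30 * y) * (3 * H / (1.4 : ℝ) ^ y) := by gcongr
      _ = 5400 * y * H / (1.4 : ℝ) ^ y := by ring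
  have hb4 : 60 * (1 + Real.log (2 * ((2 * H + 1 : ℕ) : ℝ))) * v ^ 29 ≤
      5400 * y * H / (1.4 : ℝ) ^ y := by
    calc 60 * (1 + Real.log (2 * ((2 * H + 1 : ℕ) : ℝ))) * v ^ 29
        ≤ 60 * (30 * y) * (3 * H / (1.4 : ℝ) ^ y) := by gcongr
      _ = 5400 * y * H / (1.4 : ℝ) ^ y := by ring
  set K : ℝ := ((Cand X H (primorial y) (PP y z)).card : ℝ) with hK
  set S : ℝ := ((SGI X H).card : ℝ) with hS
  have hKS : K ≤ S + 7680 * H / (l : ℝ) ^ 3 + 10800 * y * H / (1.4 : ℝ) ^ y := by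
    have e1 : 7680 * (H : ℝ) / (l : ℝ) ^ 3 = 1920 * H / (l : ℝ) ^ 3 + 5760 * H / (l : ℝ) ^ 3 := by
      ring
    have e2 : 10800 * y * (H : ℝ) / (1.4 : ℝ) ^ y =
      5400 * y * H / (1.4 : ℝ) ^ y + 5400 * y * H / (1.4 : ℝ) ^ y := by ring
    rw [e1, e2]
    linarith
  -- multiply by (log y)^2
  have hlog2 : (Real.log y) ^ 2 ≤ 4 * (l : ℝ) ^ 2 := by
    calc (Real.log y) ^ 2 ≤ (2 * (l : ℝ)) ^ 2 := by gcongr
      _ = 4 * (l : ℝ) ^ 2 := by ring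
  have hD1 : (Real.log y) ^ 2 * (7680 * H / (l : ℝ) ^ 3) ≤ c / 8 * H := by
    calc (Real.log y) ^ 2 * (7680 * H / (l : ℝ) ^ 3)
        ≤ (4 * (l : ℝ) ^ 2) * (7680 * H / (l : ℝ) ^ 3) := by gcongr
      _ = (30720 / (l : ℝ)) * H := by field_simp; norm_num
      _ ≤ (46080 / (l : ℝ)) * H := by gcongr; norm_num
      _ ≤ c / 8 * H := by gcongr
  have hD2 : (Real.log y) ^ 2 * (10800 * y * H / (1.4 : ℝ) ^ y) ≤ c / 8 * H := by
    calc (Real.log y) ^ 2 * (10800 * y * H / (1.4 : ℝ) ^ y)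
        ≤ (4 * (l : ℝ) ^ 2) * (10800 * y * H / (1.4 : ℝ) ^ y) := by gcongr
      _ ≤ (4 * (y : ℝ) ^ 2) * (10800 * y * H / (1.4 : ℝ) ^ y) := by gcongr
      _ = (43200 * (y : ℝ) ^ 3 / (1.4 : ℝ) ^ y) * H := by ring
      _ ≤ c / 8 * H := by gcongr
  -- the candidates
  set Q := primorial y with hQD
  have hQ0 : 0 < Q := primorial_pos y
  have hQ0' : (0 : ℝ) < Q := by exact_mod_cast hQ0
  have hcand := card_Cand X H Q (PP y z) hQ0 (by
    intro p hp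
    rw [PP, mem_filter, mem_Ioc] at hp
    refine ⟨hp.2, fun h => ?_⟩
    have := (hp.2.dvd_primorial_iff).1 h
    omega)
  have hsum : ∑ p ∈ PP y z, 1 / (p : ℝ) ≤ 1 / 8 :=
    recip C hC0 hC y z l hy3 hl1 f1 f4 f6 he3
  have hPcard : ((PP y z).card : ℝ) ≤ z := by
    have : (PP y z).card ≤ z := by
      calc (PP y z).card ≤ (Ioc y z).card := card_filter_le _ _
        _ ≤ z := by rw [Nat.card_Ioc]; omega
    exact_mod_cast this
  have hHQ : (4 : ℝ) ^ (7 * y) ≤ H / Q := by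
    rw [le_div_iff₀ hQ0']
    have h1 : (Q : ℝ) ≤ 4 ^ y := by exact_mod_cast primorial_le_four_pow y
    have h2 : ((4 ^ (8 * y) : ℕ) : ℝ) ≤ H := by exact_mod_cast hlow
    calc (4 : ℝ) ^ (7 * y) * Q ≤ (4 : ℝ) ^ (7 * y) * 4 ^ y := by gcongr
      _ = (4 : ℝ) ^ (8 * y) := by rw [← pow_add]; ring_nf
      _ ≤ H := by exact_mod_cast h2
  have hzy5 : (z : ℝ) ≤ (y : ℝ) ^ 5 := by exact_mod_cast f2
  have h2pow := two_pow_bound y hy3
  set T : ℝ := (H : ℝ) / Q with hT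
  have hT0 : 0 ≤ T := by positivity
  set R : ℝ := ((G Q).card : ℝ) with hR
  have hR0 : 0 ≤ R := by positivity
  have hin : T / 2 ≤ T - 1 - 2 * ((PP y z).card : ℝ) - 2 * T * ∑ p ∈ PP y z, 1 / (p : ℝ) := by
    have h1 : T * ∑ p ∈ PP y z, 1 / (p : ℝ) ≤ T * (1 / 8) := mul_le_mul_of_nonneg_left hsum hT0
    linarith
  have hK2 : R * (T / 2) ≤ K := le_trans (by gcongr) hcand
  have hmain1 : c / 2 * H ≤ (Real.log y) ^ 2 * K := by
    have h1 := hdens y hy3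
    have h2 : (Q : ℝ) * (T / 2) = H / 2 := by rw [hT]; field_simp
    calc c / 2 * H = c * Q * (T / 2) := by rw [mul_assoc, h2]; ring
      _ ≤ ((Real.log y) ^ 2 * R) * (T / 2) := by
          apply mul_le_mul_of_nonneg_right h1 (by positivity)
      _ = (Real.log y) ^ 2 * (R * (T / 2)) := by ring
      _ ≤ (Real.log y) ^ 2 * K := by gcongr
  have hmain2 : (Real.log y) ^ 2 * K ≤ (Real.log y) ^ 2 * S + c / 8 * H + c / 8 * H := by
    have h1 : (Real.log y) ^ 2 * K ≤ (Real.log y) ^ 2 *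
        (S + 7680 * H / (l : ℝ) ^ 3 + 10800 * y * H / (1.4 : ℝ) ^ y) := by gcongr
    rw [mul_add, mul_add] at h1
    linarith
  have hmain3 : c / 4 * H ≤ (Real.log y) ^ 2 * S := by linarith
  exact hmain3

end Pool.Agent.Helper15.SG
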