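import Mathlib

/-! The choice of the parameters. -/

namespace Pool.Agent.Helper15.SG

theorem params (y₀ : ℕ) : ∃ X₀ : ℕ, ∀ X : ℕ, X₀ ≤ X → ∃ y : ℕ, y₀ ≤ y ∧
    4 ^ (8 * y) ≤ Nat.sqrt X + 1 ∧ Nat.sqrt X + 1 < 4 ^ (8 * y + 8) ∧
    Nat.sqrt X + 1 + 1 ≤ X ∧ X ≤ (Nat.sqrt X + 1) ^ 2 ∧ (Nat.sqrt X + 1) ^ 2 ≤ 4 * X ∧
    (2 * (Nat.sqrt X + 1) + 1) ^ 2 ≤ 8 * X := by
  obtain ⟨M, hM⟩ : ∃ M : ℕ, M = 4 ^ (8 * y₀) := ⟨_, rfl⟩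
  refine ⟨max 100 (M ^ 2), fun X hX => ?_⟩
  have hX100 : 100 ≤ X := (le_max_left _ _).trans hX
  have hXbig : M ^ 2 ≤ X := (le_max_right _ _).trans hX
  have hs1 : Nat.sqrt X * Nat.sqrt X ≤ X := Nat.sqrt_le X
  have hs2 : X < (Nat.sqrt X + 1) * (Nat.sqrt X + 1) := Nat.lt_succ_sqrt X
  have hs10 : 10 ≤ Nat.sqrt X := by
    rw [Nat.le_sqrt]; omega
  have hMs : M ≤ Nat.sqrt X := by
    rw [Nat.le_sqrt, ← sq]; exact hXbig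
  generalize Nat.sqrt X = s at *
  have h1 : 8 * y₀ ≤ Nat.log 4 (s + 1) :=
    Nat.le_log_of_pow_le (by norm_num) (by rw [← hM]; omega)
  have h2 : 4 ^ (Nat.log 4 (s + 1)) ≤ s + 1 := Nat.pow_log_le_self 4 (by omega)
  have h3 : s + 1 < 4 ^ (Nat.log 4 (s + 1) + 1) := Nat.lt_pow_succ_log_self (by norm_num) (s + 1)
  generalize Nat.log 4 (s + 1) = L at *
  refine ⟨L / 8, by omega, ?_, ?_, by nlinarith, by nlinarith, by nlinarith, by nlinarith⟩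
  · exact (Nat.pow_le_pow_right (by norm_num) (by omega)).trans h2
  · exact h3.trans_le (Nat.pow_le_pow_right (by norm_num) (by omega))

end Pool.Agent.Helper15.SG
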