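import Mathlib
import Pool.Agent.Helper15.SG.Core
import Pool.Agent.Helper15.SG.Par

/-! The main count. -/

namespace Pool.Agent.Helper15.SG

open Finset Filter

theorem log_log_bound (X H y : ℕ) (hy3 : 3 ≤ y) (hHX : H + 1 ≤ X) (hlow : 4 ^ (8 * y) ≤ H) :
    (y : ℝ) ≤ Real.log X := by
  have h2 : (4 : ℝ) ^ y ≤ X := by
    have h3 : (4 : ℝ) ^ y ≤ 4 ^ (8 * y) := pow_le_pow_right₀ (by norm_num) (by omega)
    have h4 : ((4 : ℝ) ^ (8 * y)) ≤ H := by exact_mod_cast hlow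
    have h5 : (H : ℝ) ≤ X := by exact_mod_cast (by omega : H ≤ X)
    linarith
  have h3 : y * Real.log 4 ≤ Real.log X := by
    rw [← Real.log_pow]
    exact Real.log_le_log (by positivity) h2
  have h4 : 1 ≤ Real.log 4 := by
    rw [show (4 : ℝ) = 2 ^ 2 by norm_num, Real.log_pow]
    have := Real.log_two_gt_d9
    push_cast
    linarith
  have h5 : (0 : ℝ) ≤ y := by positivity
  nlinarith

theorem main : ∃ c : ℝ, 0 < c ∧ ∃ X₀ : ℕ, ∀ X : ℕ, X₀ ≤ X → 0 < Real.log (Real.log X) ∧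
    c * √(X : ℝ) ≤ (Real.log (Real.log X)) ^ 2 * ((SGI X (Nat.sqrt X + 1)).card : ℝ) := by
  obtain ⟨c, hc, hdens⟩ := dens
  obtain ⟨C, hC0, hC⟩ := Pool.Agent.Helper923.HMertens.mertens_ratio
  have hev := ev c C hc
  rw [eventually_atTop] at hev
  obtain ⟨y₀, hy₀⟩ := hev
  obtain ⟨X₀, hX₀⟩ := params y₀
  refine ⟨c / 4, by positivity, X₀, fun X hX => ?_⟩
  obtain ⟨y, hyy₀, hlow, hup, hHX, hX2, hX4, hX8⟩ := hX₀ X hX
  generalize Nat.sqrt X + 1 = H at *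
  obtain ⟨hy3, hl1, he1, he2, he3⟩ := hy₀ y hyy₀
  obtain ⟨f1, f2, f3, f4, f5, f6⟩ := facts y hy3 hl1
  have hly := Nat.log_le_self 2 y
  generalize Nat.log 2 y = l at *
  have hH1 : 1 ≤ H := le_trans (Nat.one_le_pow _ _ (by norm_num)) hlow
  have hmain3 := core c C hc hC0 hdens hC X H y l (y * l ^ 4) hy3 hl1 hly rfl
    hHX hX2 hX4 hX8 hH1 hlow hup he1 he2 he3 f1 f2 f3 f4 f5 f6
  have hlogy1 : 0 < Real.log y := Real.log_pos (by exact_mod_cast (show 1 < y by omega))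
  have hS0 : (0 : ℝ) ≤ ((SGI X H).card : ℝ) := by positivity
  generalize ((SGI X H).card : ℝ) = S at *
  have hyX : (y : ℝ) ≤ Real.log X := log_log_bound X H y hy3 hHX hlow
  have hll : Real.log y ≤ Real.log (Real.log X) :=
    Real.log_le_log (by exact_mod_cast (show 0 < y by omega)) hyX
  have hsq : √(X : ℝ) ≤ H := by
    rw [Real.sqrt_le_left (by positivity)]
    exact_mod_cast hX2
  refine ⟨by linarith, ?_⟩
  calc c / 4 * √(X : ℝ) ≤ c / 4 * H := by gcongr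
    _ ≤ (Real.log y) ^ 2 * S := hmain3
    _ ≤ (Real.log (Real.log X)) ^ 2 * S := by gcongr

end Pool.Agent.Helper15.SG
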