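import Pool.Agent.Helper15.SG.Sep

set_option autoImplicit false

/-!
# Lattice points near a hyperbola, in an arithmetic progression

For a strictly increasing sequence `s 0 < s 1 < ...` and numbers `k i` with
`X < p * s i * (1 + p * k i) ≤ X + H`, both `s i` and `k i` larger than `2 H / p²`, the number of
terms is small.
-/

namespace Pool.Agent.Helper15.SG

section pair

variable {X H p m m' k k' : ℕ}

/-- the second factor decreases -/
theorem k_lt (hp : 1 ≤ p) (hmm : m < m') (h2 : p * m' * (1 + p * k') ≤ X + H)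
    (h1 : X < p * m * (1 + p * k)) (hk : 2 * H < p ^ 2 * k) : k' < k := by
  by_contra hc
  push Not at hc
  have e1 : p * m * (1 + p * k) + p * (1 + p * k) ≤ p * m' * (1 + p * k') := by
    calc p * m * (1 + p * k) + p * (1 + p * k) = p * (m + 1) * (1 + p * k) := by ring
      _ ≤ p * m' * (1 + p * k') := by gcongr; omega
  have e2 : p * (1 + p * k) = p + p ^ 2 * k := by ring
  omega

/-- the basic two sided inequality -/
theorem star (hmm : m < m') (hkk : k' < k)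
    (h1 : X < p * m * (1 + p * k)) (h1' : p * m * (1 + p * k) ≤ X + H)
    (h2 : X < p * m' * (1 + p * k')) (h2' : p * m' * (1 + p * k') ≤ X + H) :
    (X : ℝ) * (m' - m) - H * m ≤ (p : ℝ) ^ 2 * (k - k') * m * m' ∧
    (p : ℝ) ^ 2 * (k - k') * m * m' ≤ (X : ℝ) * (m' - m) + H * m' := by
  have a1 : (X : ℝ) ≤ p * m * (1 + p * k) := by exact_mod_cast h1.le
  have a1' : (p : ℝ) * m * (1 + p * k) ≤ X + H := by exact_mod_cast h1'
  have a2 : (X : ℝ) ≤ p * m' * (1 + p * k') := by exact_mod_cast h2.le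
  have a2' : (p : ℝ) * m' * (1 + p * k') ≤ X + H := by exact_mod_cast h2'
  have e : (p : ℝ) ^ 2 * (k - k') * m * m' =
      m' * (p * m * (1 + p * k)) - m * (p * m' * (1 + p * k')) := by ring
  have hm0 : (0 : ℝ) ≤ m := by positivity
  have hm0' : (0 : ℝ) ≤ m' := by positivity
  rw [e]
  constructor
  · have b1 := mul_le_mul_of_nonneg_left a1 hm0'
    have b2 := mul_le_mul_of_nonneg_left a2' hm0
    linarith
  · have b1 := mul_le_mul_of_nonneg_left a1' hm0'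
    have b2 := mul_le_mul_of_nonneg_left a2 hm0
    linarith

/-- upper bound for `h = k - k'` in terms of the gap -/
theorem h_upper (hH : 0 < H) (hmm : m < m') (hkk : k' < k)
    (h1 : X < p * m * (1 + p * k)) (h1' : p * m * (1 + p * k) ≤ X + H)
    (h2 : X < p * m' * (1 + p * k')) (h2' : p * m' * (1 + p * k') ≤ X + H)
    (hm : 2 * H < p ^ 2 * m) :
    (p : ℝ) ^ 2 * (k - k') * m ^ 2 ≤ 2 * X * (m' - m) := by
  obtain ⟨_, hs⟩ := star hmm hkk h1 h1' h2 h2'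
  have hm1 : (2 : ℝ) * H ≤ p ^ 2 * m := by exact_mod_cast hm.le
  have hh : (1 : ℝ) ≤ (k : ℝ) - k' := by
    have : (k' : ℝ) + 1 ≤ k := by exact_mod_cast hkk
    linarith
  have hmm' : (m : ℝ) < m' := by exact_mod_cast hmm
  have hm0 : (0 : ℝ) < m := by
    have : 0 < m := by
      rcases Nat.eq_zero_or_pos m with h | h
      · subst h; simp at hm
      · exact h
    exact_mod_cast this
  have hp2 : (0 : ℝ) ≤ (p : ℝ) ^ 2 := by positivity
  -- H m' ≤ p² h m m' / 2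
  have e1 : (H : ℝ) * m' ≤ (p : ℝ) ^ 2 * (k - k') * m * m' / 2 := by
    have : (p : ℝ) ^ 2 * m ≤ (p : ℝ) ^ 2 * m * (k - k') := by
      apply le_mul_of_one_le_right _ hh; positivity
    have h3 : (2 : ℝ) * H ≤ (p : ℝ) ^ 2 * m * (k - k') := hm1.trans this
    have h4 : (0 : ℝ) ≤ m' := by positivity
    nlinarith [mul_le_mul_of_nonneg_right h3 h4]
  have e2 : (p : ℝ) ^ 2 * (k - k') * m * m' ≤ 2 * (X * (m' - m)) := by linarith
  have e3 : (p : ℝ) ^ 2 * (k - k') * m ^ 2 ≤ (p : ℝ) ^ 2 * (k - k') * m * m' := by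
    have : (0 : ℝ) ≤ (p : ℝ) ^ 2 * (k - k') * m := by
      apply mul_nonneg (mul_nonneg hp2 (by linarith)) hm0.le
    nlinarith [mul_le_mul_of_nonneg_left hmm'.le this]
  linarith

/-- upper bound for the gap in terms of `h = k - k'` -/
theorem a_upper (hp : 1 ≤ p) (hH : 0 < H) (hHX : H ≤ X) (hX : X ≤ H ^ 2) (hmm : m < m') (hkk : k' < k)
    (h1 : X < p * m * (1 + p * k)) (h1' : p * m * (1 + p * k) ≤ X + H)
    (h2 : X < p * m' * (1 + p * k')) (h2' : p * m' * (1 + p * k') ≤ X + H)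
    (hk' : 2 * H < p ^ 2 * k') :
    m' - m ≤ (k - k') * p ^ 2 := by
  -- real variables
  have a1 : (X : ℝ) ≤ p * m * (1 + p * k) := by exact_mod_cast h1.le
  have a1' : (p : ℝ) * m * (1 + p * k) ≤ X + H := by exact_mod_cast h1'
  have a2' : (p : ℝ) * m' * (1 + p * k') ≤ X + H := by exact_mod_cast h2'
  have hHX' : (H : ℝ) ≤ X := by exact_mod_cast hHX
  have hX' : (X : ℝ) ≤ H ^ 2 := by exact_mod_cast hX
  have hp' : (1 : ℝ) ≤ p := by exact_mod_cast hp
  have hH' : (0 : ℝ) < H := by exact_mod_cast hH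
  have hkk' : (k' : ℝ) + 1 ≤ k := by exact_mod_cast hkk
  have hmm' : (m : ℝ) + 1 ≤ m' := by exact_mod_cast hmm
  have hk1 : (2 : ℝ) * H ≤ p ^ 2 * k' := by exact_mod_cast hk'.le
  set q' : ℝ := 1 + p * k' with hq'
  have hpq : (2 : ℝ) * H ≤ p * q' := by
    rw [hq']; nlinarith
  have hq0 : 0 < q' := by rw [hq']; positivity
  have hm0 : (0 : ℝ) ≤ m := by positivity
  -- p a q' ≤ H + p² m h
  have e1 : (p : ℝ) * (m' - m) * q' ≤ H + p ^ 2 * m * (k - k') := by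
    have : (p : ℝ) * (m' - m) * q' = p * m' * (1 + p * k') - p * m * (1 + p * k) +
        p ^ 2 * m * (k - k') := by rw [hq']; ring
    rw [this]; linarith
  -- H ≤ p a q' / 2
  have e2 : (H : ℝ) ≤ p * (m' - m) * q' / 2 := by
    have h3 : (p : ℝ) * q' ≤ (p * q') * (m' - m) := by
      apply le_mul_of_one_le_right (by positivity); linarith
    nlinarith
  have e3 : (m' - m : ℝ) * q' ≤ 2 * p * m * (k - k') := by
    have h4 : (p : ℝ) * ((m' - m) * q') ≤ p * (2 * p * m * (k - k')) := by nlinarith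
    exact le_of_mul_le_mul_left h4 (by linarith)
  -- m * q' * p ≤ 2 X
  have e4 : (p : ℝ) * m * q' ≤ 2 * X := by
    have h5 : (p : ℝ) * m * q' ≤ p * m * (1 + p * k) := by
      rw [hq']
      have : (p : ℝ) * k' ≤ p * k := by nlinarith
      have h6 : (0 : ℝ) ≤ p * m := by positivity
      nlinarith
    linarith
  have hh : (0 : ℝ) ≤ (k : ℝ) - k' := by linarith
  -- (m'-m) q'^2 ≤ 4 X h
  have e5 : (m' - m : ℝ) * q' ^ 2 ≤ 4 * X * (k - k') := by
    calc (m' - m : ℝ) * q' ^ 2 = ((m' - m) * q') * q' := by ring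
      _ ≤ (2 * p * m * (k - k')) * q' := mul_le_mul_of_nonneg_right e3 hq0.le
      _ = 2 * (k - k') * (p * m * q') := by ring
      _ ≤ 2 * (k - k') * (2 * X) := mul_le_mul_of_nonneg_left e4 (by linarith)
      _ = 4 * X * (k - k') := by ring
  -- multiply by p²: (m'-m) (p q')² ≤ 4 X h p², and (p q')² ≥ 4H² ≥ 4X
  have e6 : (m' - m : ℝ) * (4 * H ^ 2) ≤ (4 * H ^ 2) * ((k - k') * p ^ 2) := by
    calc (m' - m : ℝ) * (4 * H ^ 2) = (m' - m) * (2 * H) ^ 2 := by ring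
      _ ≤ (m' - m) * (p * q') ^ 2 := by
          apply mul_le_mul_of_nonneg_left _ (by linarith)
          apply pow_le_pow_left₀ (by positivity) hpq
      _ = p ^ 2 * ((m' - m : ℝ) * q' ^ 2) := by ring
      _ ≤ p ^ 2 * (4 * X * (k - k')) := mul_le_mul_of_nonneg_left e5 (by positivity)
      _ = (4 * X) * ((k - k') * p ^ 2) := by ring
      _ ≤ (4 * H ^ 2) * ((k - k') * p ^ 2) := by
          apply mul_le_mul_of_nonneg_right _ (by positivity)
          linarith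
  have e7 : (m' - m : ℝ) ≤ (k - k') * p ^ 2 := by
    have : (0 : ℝ) < 4 * H ^ 2 := by positivity
    rw [mul_comm (m' - m : ℝ)] at e6
    exact le_of_mul_le_mul_left e6 this
  have e8 : ((m' - m : ℕ) : ℝ) ≤ (((k - k') * p ^ 2 : ℕ) : ℝ) := by
    push_cast [Nat.cast_sub hmm.le, Nat.cast_sub hkk.le]
    exact e7
  exact_mod_cast e8

theorem h_le (hp : 1 ≤ p) (hH : 0 < H) (hX : X ≤ H ^ 2) (hmm : m < m') (hkk : k' < k)
    (h1 : X < p * m * (1 + p * k)) (h1' : p * m * (1 + p * k) ≤ X + H)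
    (h2 : X < p * m' * (1 + p * k')) (h2' : p * m' * (1 + p * k') ≤ X + H)
    (hm : 2 * H < p ^ 2 * m) :
    k - k' ≤ (m' - m) * p ^ 2 := by
  have e1 := h_upper hH hmm hkk h1 h1' h2 h2' hm
  have hX' : (X : ℝ) ≤ H ^ 2 := by exact_mod_cast hX
  have hp' : (1 : ℝ) ≤ p := by exact_mod_cast hp
  have hH' : (0 : ℝ) < H := by exact_mod_cast hH
  have hkk' : (k' : ℝ) + 1 ≤ k := by exact_mod_cast hkk
  have hmm' : (m : ℝ) + 1 ≤ m' := by exact_mod_cast hmm
  have hm1 : (2 : ℝ) * H ≤ p ^ 2 * m := by exact_mod_cast hm.le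
  have hh : (0 : ℝ) ≤ (k : ℝ) - k' := by linarith
  -- h (p² m)² ≤ 2 X a p²
  have e6 : (2 * H ^ 2 : ℝ) * (k - k') ≤ (2 * H ^ 2) * ((m' - m) * p ^ 2) := by
    calc (2 * H ^ 2 : ℝ) * (k - k') ≤ (2 * H) ^ 2 * (k - k') := by nlinarith [sq_nonneg (H : ℝ)]
      _ ≤ (p ^ 2 * m) ^ 2 * (k - k') := by
          apply mul_le_mul_of_nonneg_right _ hh
          apply pow_le_pow_left₀ (by positivity) hm1
      _ = p ^ 2 * ((p : ℝ) ^ 2 * (k - k') * m ^ 2) := by ring
      _ ≤ p ^ 2 * (2 * X * (m' - m)) := mul_le_mul_of_nonneg_left e1 (by positivity)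
      _ = (2 * X) * ((m' - m) * p ^ 2) := by ring
      _ ≤ (2 * H ^ 2) * ((m' - m) * p ^ 2) := by
          apply mul_le_mul_of_nonneg_right (by linarith)
          apply mul_nonneg (by linarith) (by positivity)
  have e7 : (k - k' : ℝ) ≤ (m' - m) * p ^ 2 :=
    le_of_mul_le_mul_left e6 (by positivity)
  have e8 : ((k - k' : ℕ) : ℝ) ≤ (((m' - m) * p ^ 2 : ℕ) : ℝ) := by
    push_cast [Nat.cast_sub hmm.le, Nat.cast_sub hkk.le]
    exact e7
  exact_mod_cast e8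

/-- for a close pair, the product of the gap and of `h` is small -/
theorem ah_le {T : ℕ} (hT : 1 ≤ T) (hXT : X ≤ p ^ 2 * T ^ 3) (hp : 1 ≤ p) (hH : 0 < H)
    (hmm : m < m') (hkk : k' < k)
    (h1 : X < p * m * (1 + p * k)) (h1' : p * m * (1 + p * k) ≤ X + H)
    (h2 : X < p * m' * (1 + p * k')) (h2' : p * m' * (1 + p * k') ≤ X + H)
    (hm : 2 * H < p ^ 2 * m) (hclose : T * (m' - m) ≤ m) :
    (m' - m) * (k - k') ≤ 2 * T := by
  have e1 := h_upper hH hmm hkk h1 h1' h2 h2' hm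
  have hXT' : (X : ℝ) ≤ p ^ 2 * T ^ 3 := by exact_mod_cast hXT
  have hp' : (1 : ℝ) ≤ p := by exact_mod_cast hp
  have hT' : (1 : ℝ) ≤ T := by exact_mod_cast hT
  have hkk' : (k' : ℝ) + 1 ≤ k := by exact_mod_cast hkk
  have hmm' : (m : ℝ) + 1 ≤ m' := by exact_mod_cast hmm
  have hcl : (T : ℝ) * (m' - m) ≤ m := by
    have : ((T * (m' - m) : ℕ) : ℝ) ≤ m := by exact_mod_cast hclose
    push_cast [Nat.cast_sub hmm.le] at this
    exact this
  have hh : (0 : ℝ) ≤ (k : ℝ) - k' := by linarith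
  have ha : (0 : ℝ) < (m' : ℝ) - m := by linarith
  set a : ℝ := (m' : ℝ) - m with ha'
  set h : ℝ := (k : ℝ) - k' with hh'
  -- p² h (T a)² ≤ p² h m² ≤ 2 X a ≤ 2 p² T³ a
  have e2 : (p ^ 2 * T ^ 2 * a : ℝ) * (a * h) ≤ (p ^ 2 * T ^ 2 * a) * (2 * T) := by
    calc (p ^ 2 * T ^ 2 * a : ℝ) * (a * h) = p ^ 2 * h * (T * a) ^ 2 := by ring
      _ ≤ p ^ 2 * h * m ^ 2 := by
          apply mul_le_mul_of_nonneg_left _ (by positivity)
          apply pow_le_pow_left₀ (by positivity) hcl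
      _ ≤ 2 * X * a := e1
      _ ≤ 2 * (p ^ 2 * T ^ 3) * a := by
          apply mul_le_mul_of_nonneg_right _ ha.le
          linarith
      _ = (p ^ 2 * T ^ 2 * a) * (2 * T) := by ring
  have e3 : a * h ≤ 2 * T := le_of_mul_le_mul_left e2 (by positivity)
  have e4 : (((m' - m) * (k - k') : ℕ) : ℝ) ≤ ((2 * T : ℕ) : ℝ) := by
    push_cast [Nat.cast_sub hmm.le, Nat.cast_sub hkk.le]
    exact e3
  exact_mod_cast e4

/-- two pairs with the same gap and the same `h` are close to each other -/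
theorem fiber_close {a h m₁ m₂ k₁ k₂ : ℕ} (ha : 0 < a) (hh : 0 < h) (hmm : m₁ < m₂)
    (h1 : X < p * m₁ * (1 + p * (k₁ + h))) (h1' : p * m₁ * (1 + p * (k₁ + h)) ≤ X + H)
    (h2 : X < p * (m₁ + a) * (1 + p * k₁)) (h2' : p * (m₁ + a) * (1 + p * k₁) ≤ X + H)
    (h3 : X < p * m₂ * (1 + p * (k₂ + h))) (h3' : p * m₂ * (1 + p * (k₂ + h)) ≤ X + H)
    (h4 : X < p * (m₂ + a) * (1 + p * k₂)) (h4' : p * (m₂ + a) * (1 + p * k₂) ≤ X + H) :
    (p : ℝ) ^ 2 * h * ((m₂ : ℝ) - m₁) ≤ H := by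
  obtain ⟨s1, _⟩ := star (k := k₁ + h) (k' := k₁) (m := m₁) (m' := m₁ + a) (by omega) (by omega)
    h1 h1' h2 h2'
  obtain ⟨_, s2⟩ := star (k := k₂ + h) (k' := k₂) (m := m₂) (m' := m₂ + a) (by omega) (by omega)
    h3 h3' h4 h4'
  push_cast at s1 s2
  have hmm' : (m₁ : ℝ) + 1 ≤ m₂ := by exact_mod_cast hmm
  have ha' : (1 : ℝ) ≤ a := by exact_mod_cast ha
  have hm0 : (0 : ℝ) ≤ m₁ := by positivity
  have e1 : ((m₁ : ℝ) + m₂ + a) * ((p : ℝ) ^ 2 * h * ((m₂ : ℝ) - m₁)) ≤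
      ((m₁ : ℝ) + m₂ + a) * H := by
    nlinarith
  exact le_of_mul_le_mul_left e1 (by positivity)

end pair

end Pool.Agent.Helper15.SG
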