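import Pool.Agent.Helper15.SG.Seq

set_option autoImplicit false

/-!
# Multiples of `p (1 + p k)` in an interval of length about the square root
-/

namespace Pool.Agent.Helper15.SG

open Finset

/-- the numbers `n` in `(X, X + H]` of the form `p m (1 + p k)`, `k ≥ 1` -/
def NP (X H p : ℕ) : Set ℕ := {n | X < n ∧ n ≤ X + H ∧ ∃ m k, 1 ≤ k ∧ n = p * m * (1 + p * k)}

theorem union_bound (X H p : ℕ) (hp : 2 ≤ p) (hH : 0 < H) (A : Finset ℕ) (B : ℕ → Finset ℕ)
    (hA : ∀ n ∈ A, ∃ m, 1 ≤ m ∧ p ^ 2 * m ≤ 2 * H ∧ n ∈ B m)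
    (hB : ∀ m, 1 ≤ m → ((B m).card : ℝ) ≤ 1 + H / (p ^ 2 * m)) :
    (A.card : ℝ) ≤ H / p ^ 2 * (3 + Real.log (2 * H)) := by
  have hp2 : 0 < p ^ 2 := by positivity
  have hp0 : (0 : ℝ) < (p : ℝ) ^ 2 := by exact_mod_cast hp2
  have hH1 : (1 : ℝ) ≤ H := by exact_mod_cast hH
  have hlog : 0 ≤ Real.log (2 * H) := Real.log_nonneg (by linarith)
  set M := 2 * H / p ^ 2 with hM
  have hsub : A ⊆ (Icc 1 M).biUnion B := by
    intro n hn
    obtain ⟨m, h1, h2, h3⟩ := hA n hn
    rw [mem_biUnion]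
    refine ⟨m, ?_, h3⟩
    rw [mem_Icc]
    refine ⟨h1, ?_⟩
    rw [hM, Nat.le_div_iff_mul_le hp2, mul_comm]
    exact h2
  have hc : (A.card : ℝ) ≤ ∑ m ∈ Icc 1 M, ((B m).card : ℝ) := by
    have := (Finset.card_le_card hsub).trans Finset.card_biUnion_le
    exact_mod_cast this
  rcases Nat.eq_zero_or_pos M with h0 | h0
  · rw [h0] at hc
    simp only [Finset.Icc_eq_empty_of_lt (by norm_num : (0:ℕ) < 1), Finset.sum_empty] at hc
    refine hc.trans ?_
    positivity
  have hMle : (M : ℝ) ≤ 2 * H / p ^ 2 := by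
    have := @Nat.cast_div_le ℝ _ _ _ (2 * H) (p ^ 2)
    push_cast at this
    exact this
  have hM2 : (M : ℝ) ≤ 2 * H := by
    refine hMle.trans ?_
    rw [div_le_iff₀ hp0]
    have : (1 : ℝ) ≤ (p : ℝ) ^ 2 := by exact_mod_cast hp2
    nlinarith
  have hlogM : Real.log M ≤ Real.log (2 * H) :=
    Real.log_le_log (by exact_mod_cast h0) hM2
  calc (A.card : ℝ) ≤ ∑ m ∈ Icc 1 M, ((B m).card : ℝ) := hc
    _ ≤ ∑ m ∈ Icc 1 M, (1 + (H : ℝ) / p ^ 2 * (1 / m)) := by
        apply Finset.sum_le_sum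
        intro m hm
        rw [mem_Icc] at hm
        refine (hB m hm.1).trans (le_of_eq ?_)
        rw [mul_one_div, div_div]
    _ = M + (H : ℝ) / p ^ 2 * ∑ m ∈ Icc 1 M, (1 : ℝ) / m := by
        rw [Finset.sum_add_distrib, ← Finset.mul_sum]
        simp
    _ ≤ 2 * H / p ^ 2 + (H : ℝ) / p ^ 2 * (1 + Real.log (2 * H)) := by
        apply add_le_add hMle
        apply mul_le_mul_of_nonneg_left _ (by positivity)
        exact (sum_inv_Icc_one_le M h0).trans (by linarith)
    _ = H / p ^ 2 * (3 + Real.log (2 * H)) := by ring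

/-- the part of `NP` with both factors large -/
theorem central (X H p T : ℕ) (hp : 2 ≤ p) (hH : 0 < H) (hHX : H ≤ X) (hX : X ≤ H ^ 2)
    (hT : 1 ≤ T) (hXT : X ≤ p ^ 2 * T ^ 3) (A : Finset ℕ)
    (hA : ∀ n ∈ A, X < n ∧ n ≤ X + H ∧ ∃ m k, 2 * H < p ^ 2 * m ∧ 2 * H < p ^ 2 * k ∧
      n = p * m * (1 + p * k)) :
    (A.card : ℝ) ≤ 1 + 2 * (T + 1) * Real.log p + (2 * T) * (1 + Real.log (2 * T)) +
      H / p ^ 2 * (1 + Real.log (2 * T)) * (1 + 4 * Real.log p) := by
  classical
  let Q : ℕ → ℕ → Prop := fun m k => 2 * H < p ^ 2 * m ∧ 2 * H < p ^ 2 * k ∧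
    X < p * m * (1 + p * k) ∧ p * m * (1 + p * k) ≤ X + H
  let S : Finset ℕ := (Icc 1 (X + H)).filter (fun m => ∃ k, Q m k)
  let kk : ℕ → ℕ := fun m => if h : ∃ k, Q m k then h.choose else 0
  have hkk : ∀ m ∈ S, Q m (kk m) := by
    intro m hm
    have h := (mem_filter.1 hm).2
    simp only [kk, dif_pos h]
    exact h.choose_spec
  -- uniqueness
  have huniq : ∀ m k k', Q m k → Q m k' → k = k' := by
    have key : ∀ m k k', Q m k → Q m k' → ¬ k < k' := by
      intro m k k' h h' hlt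
      obtain ⟨a1, a2, a3, a4⟩ := h
      obtain ⟨b1, b2, b3, b4⟩ := h'
      have : p * m * (1 + p * k) + p ^ 2 * m ≤ p * m * (1 + p * k') := by
        calc p * m * (1 + p * k) + p ^ 2 * m = p * m * (1 + p * (k + 1)) := by ring
          _ ≤ p * m * (1 + p * k') := by gcongr; omega
      omega
    intro m k k' h h'
    have := key m k k' h h'
    have := key m k' k h' h
    omega
  have hsub : A ⊆ S.image (fun m => p * m * (1 + p * kk m)) := by
    intro n hn
    obtain ⟨h1, h2, m, k, h3, h4, h5⟩ := hA n hn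
    have hQ : Q m k := ⟨h3, h4, h5 ▸ h1, h5 ▸ h2⟩
    have hmS : m ∈ S := by
      rw [mem_filter, mem_Icc]
      refine ⟨⟨?_, ?_⟩, k, hQ⟩
      · rcases Nat.eq_zero_or_pos m with h | h
        · subst h; simp at h3
        · exact h
      · refine le_trans ?_ h2
        rw [h5]
        calc m = 1 * m * 1 := by ring
          _ ≤ p * m * (1 + p * k) := by gcongr <;> omega
    rw [mem_image]
    refine ⟨m, hmS, ?_⟩
    rw [huniq m _ _ (hkk m hmS) hQ, h5]
  have hcard : (A.card : ℝ) ≤ (S.card : ℝ) := by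
    exact_mod_cast (Finset.card_le_card hsub).trans Finset.card_image_le
  refine hcard.trans ?_
  let s : ℕ → ℕ := fun i => if h : i < S.card then S.orderEmbOfFin rfl ⟨i, h⟩ else 0
  have hsmem : ∀ i < S.card, s i ∈ S := by
    intro i hi
    simp only [s, dif_pos hi]
    exact S.orderEmbOfFin_mem rfl _
  apply nc_seq hp hH hHX hX hT hXT s (fun i => kk (s i))
  · intro i j hij hj
    simp only [s, dif_pos hj, dif_pos (hij.trans hj)]
    exact (S.orderEmbOfFin rfl).strictMono (by simpa using hij)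
  · intro i hi; exact (hkk _ (hsmem i hi)).1
  · intro i hi; exact (hkk _ (hsmem i hi)).2.1
  · intro i hi; exact (hkk _ (hsmem i hi)).2.2.1
  · intro i hi; exact (hkk _ (hsmem i hi)).2.2.2

/-- **The number of multiples.** -/
theorem card_NP (X H p T : ℕ) (hp : 2 ≤ p) (hH : 0 < H) (hHX : H ≤ X) (hX : X ≤ H ^ 2)
    (hT : 1 ≤ T) (hXT : X ≤ p ^ 2 * T ^ 3) (A : Finset ℕ) (hA : ∀ n ∈ A, n ∈ NP X H p) :
    (A.card : ℝ) ≤ 2 * (H / p ^ 2 * (3 + Real.log (2 * H))) +
      (1 + 2 * (T + 1) * Real.log p + (2 * T) * (1 + Real.log (2 * T)) +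
      H / p ^ 2 * (1 + Real.log (2 * T)) * (1 + 4 * Real.log p)) := by
  classical
  let A1 := A.filter (fun n => ∃ m k, 1 ≤ k ∧ p ^ 2 * m ≤ 2 * H ∧ n = p * m * (1 + p * k))
  let A2 := A.filter (fun n => ∃ m k, 1 ≤ k ∧ p ^ 2 * k ≤ 2 * H ∧ n = p * m * (1 + p * k))
  let A3 := A.filter (fun n => ∃ m k, 2 * H < p ^ 2 * m ∧ 2 * H < p ^ 2 * k ∧
    n = p * m * (1 + p * k))
  have hsub : A ⊆ (A1 ∪ A2) ∪ A3 := by
    intro n hn
    obtain ⟨h1, h2, m, k, h3, h4⟩ := hA n hn
    rcases Nat.lt_or_ge (2 * H) (p ^ 2 * m) with hm | hm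
    · rcases Nat.lt_or_ge (2 * H) (p ^ 2 * k) with hk | hk
      · exact mem_union_right _ (mem_filter.2 ⟨hn, m, k, hm, hk, h4⟩)
      · exact mem_union_left _ (mem_union_right _ (mem_filter.2 ⟨hn, m, k, h3, hk, h4⟩))
    · exact mem_union_left _ (mem_union_left _ (mem_filter.2 ⟨hn, m, k, h3, hm, h4⟩))
  have hc : A.card ≤ A1.card + A2.card + A3.card :=
    (Finset.card_le_card hsub).trans ((Finset.card_union_le _ _).trans
      (Nat.add_le_add_right (Finset.card_union_le _ _) _))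
  have b1 : (A1.card : ℝ) ≤ H / p ^ 2 * (3 + Real.log (2 * H)) := by
    apply union_bound X H p hp hH A1 (fun m => A.filter (fun n => n ≡ p * m [MOD p ^ 2 * m]))
    · intro n hn
      obtain ⟨hnA, m, k, h1, h2, h3⟩ := mem_filter.1 hn
      refine ⟨m, ?_, h2, ?_⟩
      · rcases Nat.eq_zero_or_pos m with h | h
        · subst h
          have := (hA n hnA).1
          rw [h3] at this; simp at this
        · exact h
      · rw [mem_filter]
        refine ⟨hnA, ?_⟩
        rw [h3]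
        have : p * m * (1 + p * k) = p * m + (p ^ 2 * m) * k := by ring
        rw [this]
        exact Nat.ModEq.symm (by simp [Nat.ModEq])
    · intro m hm
      have := card_le_of_modEq (A.filter (fun n => n ≡ p * m [MOD p ^ 2 * m])) X H (p ^ 2 * m)
        (by positivity) (fun u hu => by
          have := hA u (mem_filter.1 hu).1
          exact ⟨this.1, this.2.1⟩)
        (fun u hu v hv => (mem_filter.1 hu).2.trans (mem_filter.1 hv).2.symm)
      push_cast at this
      exact this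
  have b2 : (A2.card : ℝ) ≤ H / p ^ 2 * (3 + Real.log (2 * H)) := by
    apply union_bound X H p hp hH A2 (fun k => A.filter (fun n => p * (1 + p * k) ∣ n))
    · intro n hn
      obtain ⟨hnA, m, k, h1, h2, h3⟩ := mem_filter.1 hn
      refine ⟨k, h1, h2, mem_filter.2 ⟨hnA, m, ?_⟩⟩
      rw [h3]; ring
    · intro k hk
      have := card_le_of_modEq (A.filter (fun n => p * (1 + p * k) ∣ n)) X H (p * (1 + p * k))
        (by positivity) (fun u hu => by
          have := hA u (mem_filter.1 hu).1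
          exact ⟨this.1, this.2.1⟩)
        (fun u hu v hv => by
          have h1 := (mem_filter.1 hu).2
          have h2 := (mem_filter.1 hv).2
          exact ((Nat.modEq_zero_iff_dvd.2 h1).trans (Nat.modEq_zero_iff_dvd.2 h2).symm))
      refine this.trans ?_
      have hp0 : (0 : ℝ) < p := by
        have : 0 < p := by omega
        exact_mod_cast this
      have hk0 : (0 : ℝ) < k := by exact_mod_cast hk
      push_cast
      have h5 : (p : ℝ) ^ 2 * k ≤ p * (1 + p * k) := by nlinarith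
      have h6 : (H : ℝ) / (p * (1 + p * k)) ≤ H / (p ^ 2 * k) :=
        div_le_div_of_nonneg_left (by positivity) (by positivity) h5
      linarith
  have b3 := central X H p T hp hH hHX hX hT hXT A3 (fun n hn => by
    obtain ⟨hnA, h⟩ := mem_filter.1 hn
    have := hA n hnA
    exact ⟨this.1, this.2.1, h⟩)
  have hc' : (A.card : ℝ) ≤ A1.card + A2.card + A3.card := by exact_mod_cast hc
  linarith

end Pool.Agent.Helper15.SG
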