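import Pool.Agent.Helper15.SG.Near

set_option autoImplicit false

/-!
# The number of terms of a sequence of lattice points near a hyperbola
-/

namespace Pool.Agent.Helper15.SG

open Finset

/-- pairs with product at most `M` -/
theorem card_pairs (M : ℕ) (hM : 1 ≤ M) :
    (((Icc 1 M ×ˢ Icc 1 M).filter (fun x : ℕ × ℕ => x.1 * x.2 ≤ M)).card : ℝ) ≤
      M * (1 + Real.log M) := by
  have h1 : (((Icc 1 M ×ˢ Icc 1 M).filter (fun x : ℕ × ℕ => x.1 * x.2 ≤ M)).card : ℝ) =
      ∑ a ∈ Icc 1 M, (((Icc 1 M).filter (fun h => a * h ≤ M)).card : ℝ) := by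
    rw [← Nat.cast_sum, Finset.card_filter, Finset.sum_product]
    congr 1
    apply Finset.sum_congr rfl
    intro a _
    rw [Finset.card_filter]
  rw [h1]
  have h2 : ∀ a ∈ Icc 1 M, (((Icc 1 M).filter (fun h => a * h ≤ M)).card : ℝ) ≤ M * (1 / a) := by
    intro a ha
    rw [mem_Icc] at ha
    have ha0 : 0 < a := ha.1
    have e1 : (Icc 1 M).filter (fun h => a * h ≤ M) ⊆ Icc 1 (M / a) := by
      intro h hh
      rw [mem_filter, mem_Icc] at hh
      rw [mem_Icc]
      refine ⟨hh.1.1, ?_⟩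
      rw [Nat.le_div_iff_mul_le ha0, mul_comm]
      exact hh.2
    have e2 := Finset.card_le_card e1
    rw [Nat.card_Icc, Nat.add_sub_cancel] at e2
    have e3 : ((M / a : ℕ) : ℝ) ≤ M / a := Nat.cast_div_le
    rw [mul_one_div]
    exact le_trans (by exact_mod_cast e2) e3
  calc ∑ a ∈ Icc 1 M, (((Icc 1 M).filter (fun h => a * h ≤ M)).card : ℝ)
      ≤ ∑ a ∈ Icc 1 M, (M : ℝ) * (1 / a) := Finset.sum_le_sum h2
    _ = M * ∑ a ∈ Icc 1 M, (1 : ℝ) / a := by rw [Finset.mul_sum]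
    _ ≤ M * (1 + Real.log M) := by
        apply mul_le_mul_of_nonneg_left (sum_inv_Icc_one_le M hM) (by positivity)

theorem inner_sum (a p M : ℕ) (ha : 1 ≤ a) (hp : 2 ≤ p) :
    ∑ h ∈ (Icc 1 M).filter (fun h => h ≤ a * p ^ 2 ∧ a ≤ h * p ^ 2), (1 : ℝ) / h ≤
      1 + 4 * Real.log p := by
  have hp2 : 0 < p ^ 2 := by positivity
  set b : ℕ := (a + p ^ 2 - 1) / p ^ 2 with hb
  have hb1 : 1 ≤ b := by
    rw [hb, Nat.le_div_iff_mul_le hp2]; omega
  have hb2 : a ≤ b * p ^ 2 := by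
    have h1 : (a + p ^ 2 - 1) < (b + 1) * p ^ 2 := by
      rw [hb, mul_comm]
      exact Nat.lt_mul_div_succ _ hp2
    have h2 : (b + 1) * p ^ 2 = b * p ^ 2 + p ^ 2 := by ring
    omega
  have hb3 : b ≤ a * p ^ 2 := by
    rw [hb]
    apply Nat.div_le_of_le_mul
    have e1 : 1 ≤ p ^ 2 := hp2
    obtain ⟨c, hc⟩ : ∃ c, p ^ 2 = c + 1 := ⟨p ^ 2 - 1, by omega⟩
    rw [hc]
    obtain ⟨d, hd⟩ : ∃ d, a = d + 1 := ⟨a - 1, by omega⟩
    subst hd
    have : d + 1 + (c + 1) - 1 = d + 1 + c := by omega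
    rw [this]
    nlinarith [Nat.zero_le (c * d), Nat.zero_le (c * c), Nat.zero_le (c * c * d)]
  have hsub : (Icc 1 M).filter (fun h => h ≤ a * p ^ 2 ∧ a ≤ h * p ^ 2) ⊆ Icc b (a * p ^ 2) := by
    intro h hh
    rw [mem_filter, mem_Icc] at hh
    rw [mem_Icc]
    refine ⟨?_, hh.2.1⟩
    rw [hb, Nat.div_le_iff_le_mul_add_pred hp2]
    have := hh.2.2
    rw [mul_comm (p ^ 2)]
    omega
  calc ∑ h ∈ (Icc 1 M).filter (fun h => h ≤ a * p ^ 2 ∧ a ≤ h * p ^ 2), (1 : ℝ) / h
      ≤ ∑ h ∈ Icc b (a * p ^ 2), (1 : ℝ) / h :=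
        Finset.sum_le_sum_of_subset_of_nonneg hsub (fun _ _ _ => by positivity)
    _ ≤ 1 + Real.log (((a * p ^ 2 : ℕ) : ℝ) / b) := sum_inv_Icc_le b _ hb1 hb3
    _ ≤ 1 + 4 * Real.log p := by
        have hb0 : (0 : ℝ) < b := by exact_mod_cast hb1
        have ha0 : (0 : ℝ) < a := by exact_mod_cast ha
        have hp0 : (0 : ℝ) < p := by
          have : 0 < p := by omega
          exact_mod_cast this
        have e1 : ((a * p ^ 2 : ℕ) : ℝ) / b ≤ (p : ℝ) ^ 4 := by
          rw [div_le_iff₀ hb0]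
          have : (a : ℝ) ≤ b * p ^ 2 := by exact_mod_cast hb2
          push_cast
          nlinarith [mul_le_mul_of_nonneg_right this (by positivity : (0 : ℝ) ≤ (p : ℝ) ^ 2)]
        have e2 : Real.log (((a * p ^ 2 : ℕ) : ℝ) / b) ≤ Real.log ((p : ℝ) ^ 4) := by
          apply Real.log_le_log _ e1
          push_cast
          positivity
        rw [Real.log_pow] at e2
        push_cast at e2 ⊢
        linarith

/-- the sum over the pairs `(a, h)` -/
theorem sum_pairs (p M H : ℕ) (hM : 1 ≤ M) (hp : 2 ≤ p) :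
    ∑ x ∈ (Icc 1 M ×ˢ Icc 1 M).filter (fun x : ℕ × ℕ => x.1 * x.2 ≤ M ∧
        (x.2 ≤ x.1 * p ^ 2 ∧ x.1 ≤ x.2 * p ^ 2)), (1 + (H : ℝ) / (p ^ 2 * x.2) / x.1) ≤
      M * (1 + Real.log M) + H / p ^ 2 * (1 + Real.log M) * (1 + 4 * Real.log p) := by
  have hp0 : (0 : ℝ) < p := by
    have : 0 < p := by omega
    exact_mod_cast this
  rw [Finset.sum_add_distrib]
  apply add_le_add
  · rw [Finset.sum_const, nsmul_eq_mul, mul_one]
    refine le_trans ?_ (card_pairs M hM)
    have : (Icc 1 M ×ˢ Icc 1 M).filter (fun x : ℕ × ℕ => x.1 * x.2 ≤ M ∧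
        (x.2 ≤ x.1 * p ^ 2 ∧ x.1 ≤ x.2 * p ^ 2)) ⊆
        (Icc 1 M ×ˢ Icc 1 M).filter (fun x : ℕ × ℕ => x.1 * x.2 ≤ M) := by
      intro x hx
      rw [mem_filter] at hx ⊢
      exact ⟨hx.1, hx.2.1⟩
    exact_mod_cast Finset.card_le_card this
  · have h1 : ∑ x ∈ (Icc 1 M ×ˢ Icc 1 M).filter (fun x : ℕ × ℕ => x.1 * x.2 ≤ M ∧
        (x.2 ≤ x.1 * p ^ 2 ∧ x.1 ≤ x.2 * p ^ 2)), ((H : ℝ) / (p ^ 2 * x.2) / x.1) ≤
        ∑ x ∈ (Icc 1 M ×ˢ Icc 1 M).filter (fun x : ℕ × ℕ =>
        (x.2 ≤ x.1 * p ^ 2 ∧ x.1 ≤ x.2 * p ^ 2)), ((H : ℝ) / (p ^ 2 * x.2) / x.1) := by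
      apply Finset.sum_le_sum_of_subset_of_nonneg
      · intro x hx
        rw [mem_filter] at hx ⊢
        exact ⟨hx.1, hx.2.2⟩
      · intro x _ _
        positivity
    refine h1.trans ?_
    rw [Finset.sum_filter, Finset.sum_product]
    have h2 : ∀ a ∈ Icc 1 M, ∑ h ∈ Icc 1 M, (if h ≤ a * p ^ 2 ∧ a ≤ h * p ^ 2 then
        ((H : ℝ) / (p ^ 2 * h) / a) else 0) ≤ (H : ℝ) / p ^ 2 * (1 + 4 * Real.log p) * (1 / a) := by
      intro a ha
      rw [mem_Icc] at ha
      rw [← Finset.sum_filter]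
      have e1 : ∀ h ∈ (Icc 1 M).filter (fun h => h ≤ a * p ^ 2 ∧ a ≤ h * p ^ 2),
          ((H : ℝ) / (p ^ 2 * h) / a) = (H : ℝ) / p ^ 2 * (1 / a) * (1 / h) := by
        intro h _
        rw [div_div, div_mul_div_comm, div_mul_div_comm]
        ring
      rw [Finset.sum_congr rfl e1, ← Finset.mul_sum]
      have e2 := inner_sum a p M ha.1 hp
      have e3 : (0 : ℝ) ≤ (H : ℝ) / p ^ 2 * (1 / a) := by positivity
      calc (H : ℝ) / p ^ 2 * (1 / a) * ∑ h ∈ (Icc 1 M).filter (fun h => h ≤ a * p ^ 2 ∧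
            a ≤ h * p ^ 2), (1 : ℝ) / h ≤ (H : ℝ) / p ^ 2 * (1 / a) * (1 + 4 * Real.log p) :=
            mul_le_mul_of_nonneg_left e2 e3
        _ = (H : ℝ) / p ^ 2 * (1 + 4 * Real.log p) * (1 / a) := by ring
    calc _ ≤ ∑ a ∈ Icc 1 M, (H : ℝ) / p ^ 2 * (1 + 4 * Real.log p) * (1 / a) :=
          Finset.sum_le_sum h2
      _ = (H : ℝ) / p ^ 2 * (1 + 4 * Real.log p) * ∑ a ∈ Icc 1 M, (1 : ℝ) / a := by
          rw [Finset.mul_sum]
      _ ≤ (H : ℝ) / p ^ 2 * (1 + 4 * Real.log p) * (1 + Real.log M) := by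
          apply mul_le_mul_of_nonneg_left (sum_inv_Icc_one_le M hM)
          have : 0 ≤ Real.log p := Real.log_natCast_nonneg p
          positivity
      _ = H / p ^ 2 * (1 + Real.log M) * (1 + 4 * Real.log p) := by ring

variable {X H p T N : ℕ}

theorem fiber_card (s k : ℕ → ℕ) (hs : ∀ i j, i < j → j < N → s i < s j)
    (h1 : ∀ i < N, X < p * s i * (1 + p * k i)) (h2 : ∀ i < N, p * s i * (1 + p * k i) ≤ X + H)
    (a h : ℕ) (ha : 0 < a) (hh : 0 < h) (hp : 0 < p) (C : Finset ℕ)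
    (hC : ∀ i ∈ C, i + 1 < N ∧ s (i + 1) = s i + a ∧ k i = k (i + 1) + h) :
    (C.card : ℝ) ≤ 1 + (H : ℝ) / (p ^ 2 * h) / a := by
  have hinj : Set.InjOn s C := by
    intro i hi j hj hij
    have hi' := (hC i hi).1
    have hj' := (hC j hj).1
    rcases lt_trichotomy i j with h | h | h
    · exact absurd hij (hs i j h (by omega)).ne
    · exact h
    · exact absurd hij (hs j i h (by omega)).ne'
  rw [← Finset.card_image_of_injOn hinj]
  have hlt : ∀ i ∈ C, ∀ j ∈ C, s i < s j → i < j := by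
    intro i hi j hj hij
    by_contra hc
    push Not at hc
    rcases hc.eq_or_lt with h | h
    · subst h; omega
    · have := hs j i h (by have := (hC i hi).1; omega)
      omega
  have hp0 : (0 : ℝ) < p := by exact_mod_cast hp
  have hh0 : (0 : ℝ) < h := by exact_mod_cast hh
  apply card_le_of_sep _ (a : ℝ) ((H : ℝ) / (p ^ 2 * h)) (by exact_mod_cast ha) (by positivity)
  · intro u hu v hv huv
    rw [Finset.mem_image] at hu hv
    obtain ⟨i, hi, rfl⟩ := hu
    obtain ⟨j, hj, rfl⟩ := hv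
    have hij := hlt i hi j hj huv
    have e1 : s (i + 1) ≤ s j := by
      rcases (Nat.succ_le_of_lt hij).eq_or_lt with h | h
      · rw [← h]
      · exact (hs _ _ h (by have := (hC j hj).1; omega)).le
    have e2 := (hC i hi).2.1
    have e3 : (s i : ℝ) + a ≤ s j := by
      rw [e2] at e1
      exact_mod_cast e1
    linarith
  · intro u hu v hv huv
    rw [Finset.mem_image] at hu hv
    obtain ⟨i, hi, rfl⟩ := hu
    obtain ⟨j, hj, rfl⟩ := hv
    obtain ⟨ci1, ci2, ci3⟩ := hC i hi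
    obtain ⟨cj1, cj2, cj3⟩ := hC j hj
    have a1 := h1 i (by omega)
    have a2 := h2 i (by omega)
    have a3 := h1 (i + 1) ci1
    have a4 := h2 (i + 1) ci1
    have b1 := h1 j (by omega)
    have b2 := h2 j (by omega)
    have b3 := h1 (j + 1) cj1
    have b4 := h2 (j + 1) cj1
    rw [ci3] at a1 a2
    rw [ci2] at a3 a4
    rw [cj3] at b1 b2
    rw [cj2] at b3 b4
    have key := fiber_close ha hh huv a1 a2 a3 a4 b1 b2 b3 b4
    rw [le_div_iff₀ (by positivity)]
    linarith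

/-- **Lattice points near a hyperbola in a progression.** -/
theorem nc_seq (hp : 2 ≤ p) (hH : 0 < H) (hHX : H ≤ X) (hX : X ≤ H ^ 2) (hT : 1 ≤ T)
    (hXT : X ≤ p ^ 2 * T ^ 3) (s k : ℕ → ℕ) (hs : ∀ i j, i < j → j < N → s i < s j)
    (hm : ∀ i < N, 2 * H < p ^ 2 * s i) (hk : ∀ i < N, 2 * H < p ^ 2 * k i)
    (h1 : ∀ i < N, X < p * s i * (1 + p * k i)) (h2 : ∀ i < N, p * s i * (1 + p * k i) ≤ X + H) :
    (N : ℝ) ≤ 1 + 2 * (T + 1) * Real.log p + (2 * T) * (1 + Real.log (2 * T)) +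
      H / p ^ 2 * (1 + Real.log (2 * T)) * (1 + 4 * Real.log p) := by
  have hlogp : 0 ≤ Real.log p := Real.log_natCast_nonneg p
  have hT1 : (1 : ℝ) ≤ T := by exact_mod_cast hT
  have hlogT : 0 ≤ Real.log (2 * T) := Real.log_nonneg (by linarith)
  have hp0 : (0 : ℝ) < p := by
    have : 0 < p := by omega
    exact_mod_cast this
  rcases Nat.eq_zero_or_pos N with hN | hN
  · subst hN
    have : (0 : ℝ) ≤ H / p ^ 2 * (1 + Real.log (2 * T)) * (1 + 4 * Real.log p) := by positivity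
    have : (0 : ℝ) ≤ (2 * T) * (1 + Real.log (2 * T)) := by positivity
    have : (0 : ℝ) ≤ 2 * (T + 1) * Real.log p := by positivity
    push_cast
    linarith
  set I := range (N - 1) with hI
  set F := I.filter (fun i => s i < T * (s (i + 1) - s i)) with hF
  set C := I.filter (fun i => ¬ s i < T * (s (i + 1) - s i)) with hC
  have hcard : F.card + C.card = N - 1 := by
    rw [hF, hC, Finset.card_filter_add_card_filter_not, hI, Finset.card_range]
  have hspos : ∀ i < N, 0 < s i := by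
    intro i hi
    rcases Nat.eq_zero_or_pos (s i) with h | h
    · have := hm i hi
      rw [h] at this; simp at this
    · exact h
  have hsucc : ∀ i ∈ I, i + 1 < N ∧ s i < s (i + 1) := by
    intro i hi
    rw [hI, mem_range] at hi
    exact ⟨by omega, hs i (i + 1) (by omega) (by omega)⟩
  have hkdec : ∀ i ∈ I, k (i + 1) < k i := by
    intro i hi
    obtain ⟨a, b⟩ := hsucc i hi
    exact k_lt (by omega) b (h2 (i + 1) a) (h1 i (by omega)) (hk i (by omega))
  -- far pairs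
  have hfar : (F.card : ℝ) ≤ 2 * (T + 1) * Real.log p := by
    have e1 : ∀ i ∈ F, (1 : ℝ) / (T + 1) ≤ Real.log (s (i + 1)) - Real.log (s i) := by
      intro i hi
      rw [hF, mem_filter] at hi
      obtain ⟨a, b⟩ := hsucc i hi.1
      have c1 : (0 : ℝ) < s i := by exact_mod_cast hspos i (by omega)
      have c2 : (0 : ℝ) < s (i + 1) := by exact_mod_cast hspos (i + 1) a
      have c3 : (s i : ℝ) ≤ T * ((s (i + 1) : ℝ) - s i) := by
        have : ((s i : ℕ) : ℝ) ≤ ((T * (s (i + 1) - s i) : ℕ) : ℝ) := by exact_mod_cast hi.2.le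
        push_cast [Nat.cast_sub b.le] at this
        exact this
      have c4 : Real.log (s i) - Real.log (s (i + 1)) ≤ (s i : ℝ) / s (i + 1) - 1 := by
        rw [← Real.log_div c1.ne' c2.ne']
        exact Real.log_le_sub_one_of_pos (by positivity)
      have c5 : (s i : ℝ) / s (i + 1) ≤ 1 - 1 / (T + 1) := by
        rw [div_le_iff₀ c2]
        have : (1 - 1 / ((T : ℝ) + 1)) * s (i + 1) = T / (T + 1) * s (i + 1) := by
          field_simp; ring
        rw [this, div_mul_eq_mul_div, le_div_iff₀ (by positivity)]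
        linarith
      linarith
    have e2 : ∑ i ∈ F, (1 : ℝ) / (T + 1) ≤ ∑ i ∈ I, (Real.log (s (i + 1)) - Real.log (s i)) := by
      refine (Finset.sum_le_sum e1).trans ?_
      apply Finset.sum_le_sum_of_subset_of_nonneg (Finset.filter_subset _ _)
      intro i hi _
      obtain ⟨a, b⟩ := hsucc i hi
      have c1 : (0 : ℝ) < s i := by exact_mod_cast hspos i (by omega)
      have := Real.log_le_log c1 (by exact_mod_cast b.le : (s i : ℝ) ≤ s (i + 1))
      linarith
    rw [Finset.sum_const, nsmul_eq_mul, hI, Finset.sum_range_sub (fun i => Real.log (s i))] at e2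
    have e3 : Real.log (s (N - 1)) - Real.log (s 0) ≤ 2 * Real.log p := by
      have c1 : (0 : ℝ) < s 0 := by exact_mod_cast hspos 0 hN
      have c2 : (0 : ℝ) < s (N - 1) := by exact_mod_cast hspos (N - 1) (by omega)
      have c3 : s (N - 1) ≤ H := by
        have d1 := hk (N - 1) (by omega)
        have d2 := h2 (N - 1) (by omega)
        by_contra hc
        push Not at hc
        have d3 : 2 * H * H < p ^ 2 * k (N - 1) * s (N - 1) := by
          calc 2 * H * H ≤ 2 * H * s (N - 1) := Nat.mul_le_mul_left _ hc.le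
            _ < p ^ 2 * k (N - 1) * s (N - 1) := Nat.mul_lt_mul_of_pos_right d1 (by omega)
        have d4 : p * s (N - 1) * (1 + p * k (N - 1)) =
            p * s (N - 1) + p ^ 2 * k (N - 1) * s (N - 1) := by ring
        have d5 : 2 * H * H = 2 * H ^ 2 := by ring
        omega
      have c4 : s (N - 1) ≤ p ^ 2 * s 0 := by
        have := hm 0 hN
        omega
      have c5 : (s (N - 1) : ℝ) ≤ (p : ℝ) ^ 2 * s 0 := by exact_mod_cast c4
      have c6 := Real.log_le_log c2 c5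
      rw [Real.log_mul (by positivity) c1.ne', Real.log_pow] at c6
      push_cast at c6
      linarith
    have e4 : (F.card : ℝ) * (1 / (T + 1)) ≤ 2 * Real.log p := e2.trans e3
    rw [mul_one_div, div_le_iff₀ (by positivity)] at e4
    linarith
  -- close pairs
  have hclose : (C.card : ℝ) ≤ (2 * T) * (1 + Real.log (2 * T)) +
      H / p ^ 2 * (1 + Real.log (2 * T)) * (1 + 4 * Real.log p) := by
    set P := (Icc 1 (2 * T) ×ˢ Icc 1 (2 * T)).filter (fun x : ℕ × ℕ => x.1 * x.2 ≤ 2 * T ∧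
        (x.2 ≤ x.1 * p ^ 2 ∧ x.1 ≤ x.2 * p ^ 2)) with hP
    set f : ℕ → ℕ × ℕ := fun i => (s (i + 1) - s i, k i - k (i + 1)) with hf
    have hmap : ∀ i ∈ C, f i ∈ P := by
      intro i hi
      rw [hC, mem_filter] at hi
      obtain ⟨hiI, hcl⟩ := hi
      push Not at hcl
      obtain ⟨a, b⟩ := hsucc i hiI
      have c := hkdec i hiI
      have i1 := h1 i (by omega)
      have i2 := h2 i (by omega)
      have i3 := h1 (i + 1) a
      have i4 := h2 (i + 1) a
      have r1 := ah_le hT hXT (by omega) hH b c i1 i2 i3 i4 (hm i (by omega)) hcl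
      have r2 := h_le (by omega) hH hX b c i1 i2 i3 i4 (hm i (by omega))
      have r3 := a_upper (by omega) hH hHX hX b c i1 i2 i3 i4 (hk (i + 1) a)
      have ga : 1 ≤ s (i + 1) - s i := by omega
      have gh : 1 ≤ k i - k (i + 1) := by omega
      rw [hP, mem_filter, mem_product, mem_Icc, mem_Icc]
      refine ⟨⟨⟨ga, ?_⟩, ⟨gh, ?_⟩⟩, r1, r2, r3⟩
      · exact (Nat.le_mul_of_pos_right _ gh).trans r1
      · exact (Nat.le_mul_of_pos_left _ ga).trans r1
    rw [Finset.card_eq_sum_card_fiberwise hmap, Nat.cast_sum]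
    have hsum : ∑ x ∈ P, (((C.filter (fun i => f i = x)).card : ℕ) : ℝ) ≤
        ∑ x ∈ P, (1 + (H : ℝ) / (p ^ 2 * x.2) / x.1) := by
      apply Finset.sum_le_sum
      intro x hx
      rw [hP, mem_filter, mem_product, mem_Icc, mem_Icc] at hx
      apply fiber_card s k hs h1 h2 x.1 x.2 hx.1.1.1 hx.1.2.1 (by omega)
      intro i hi
      rw [mem_filter] at hi
      have hiI : i ∈ I := by
        have := hi.1
        rw [hC, mem_filter] at this
        exact this.1
      obtain ⟨a, b⟩ := hsucc i hiI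
      have c := hkdec i hiI
      have hfx := hi.2
      rw [hf] at hfx
      have e1 : s (i + 1) - s i = x.1 := congrArg Prod.fst hfx
      have e2 : k i - k (i + 1) = x.2 := congrArg Prod.snd hfx
      exact ⟨a, by omega, by omega⟩
    refine hsum.trans ?_
    have := sum_pairs p (2 * T) H (by omega) hp
    push_cast at this ⊢
    exact this
  have hN' : (N : ℝ) = 1 + (F.card : ℝ) + C.card := by
    have : N = 1 + F.card + C.card := by omega
    exact_mod_cast this
  rw [hN']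
  linarith

end Pool.Agent.Helper15.SG
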